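import Pool.Agent.F5S.Defs

/-!
MP_f5cbfa_nt, squad F5H (hard half): the objects and the five inputs of the assembly.

`A` is a form, `x y h c` are triples of points of the plane (`R6`), `L` is the side of the planar
cells, `R = r T` the length of the radial windows, `e` the width of the tents in the values, `p` the
shifts, `W` the weight of the classes.
-/

set_option autoImplicit false

open MeasureTheory Filter Topology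

namespace Pool.Agent.F5H

open Pool.Agent.BTL Pool.Agent.F5S

/-- product of three tents of width `e` around the common value `s` -/
noncomputable def KA (e : ℝ) (p : ℝ × ℝ) (A : ℝ × ℝ × ℝ) (s : ℝ) (x : R6) : ℝ :=
  tn ((qf A x.1 - (p.1 + p.2) - s) / e) *
    (tn ((qf A x.2.1 - p.2 - s) / e) * tn ((qf A x.2.2 - s) / e))

/-- product of three planar tents of width `L` around `c`, height one -/
noncomputable def cl6 (L : ℝ) (c x : R6) : ℝ :=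
  ph (L⁻¹ • (x.1 - c.1)) * (ph (L⁻¹ • (x.2.1 - c.2.1)) * ph (L⁻¹ • (x.2.2 - c.2.2)))

/-- radial kernel, `0 ≤ PR ≤ 1`, zero for `2 R ≤ |u|` -/
noncomputable def PR (R u : ℝ) : ℝ := R⁻¹ * ∫ σ, tn ((u - σ) / R) * tn (σ / R)

/-- weight of a pair: integral over the classes -/
noncomputable def WC (L : ℝ) (W : R6 → ℝ) (x y : R6) : ℝ :=
  ∫ c, W c * ((L ^ 6)⁻¹ * (cl6 L c x * cl6 L c y))

/-- values of a pair -/
noncomputable def RV (R e : ℝ) (p : ℝ × ℝ) (A : ℝ × ℝ × ℝ) (x y : R6) : ℝ :=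
  ∫ z : ℝ × ℝ, PR R (z.1 - z.2) * (KA e p A z.1 x * KA e p A z.2 y)

/-- the kernel of a pair for the form `A` -/
noncomputable def FA (L R e : ℝ) (p : ℝ × ℝ) (W : R6 → ℝ) (A : ℝ × ℝ × ℝ) (x y : R6) : ℝ :=
  WC L W x y * RV R e p A x y

/-- smallest eigenvalue -/
noncomputable def lmin (A : ℝ × ℝ × ℝ) : ℝ :=
  (A.1 + A.2.2) / 2 - Real.sqrt (((A.1 - A.2.2) / 2) ^ 2 + A.2.1 ^ 2)

/-- largest eigenvalue -/
noncomputable def lmax (A : ℝ × ℝ × ℝ) : ℝ :=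
  (A.1 + A.2.2) / 2 + Real.sqrt (((A.1 - A.2.2) / 2) ^ 2 + A.2.1 ^ 2)

/-- Lipschitz weight of the forms: one on `KM M`, zero outside `KM (2 M)` -/
noncomputable def chK (M : ℝ) (A : ℝ × ℝ × ℝ) : ℝ :=
  cl (2 * M * lmin A - 1) * cl (2 - lmax A / M)

/-- the kernel of a pair averaged over the forms -/
noncomputable def FF (M L R e : ℝ) (p : ℝ × ℝ) (W : R6 → ℝ) (x y : R6) : ℝ :=
  ∫ A, chK M A * FA L R e p W A x y

/-- pairs with difference `h` -/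
noncomputable def fh (M L R e : ℝ) (p : ℝ × ℝ) (W : R6 → ℝ) (h x : R6) : ℝ :=
  FF M L R e p W x (x + h)

/-- admissible weights -/
def Adm (T del1 : ℝ) (W : R6 → ℝ) : Prop :=
  Measurable W ∧ (∀ c, 0 ≤ W c ∧ W c ≤ 1) ∧ (∀ c, W c ≠ 0 → good T (T ^ del1) c) ∧
  ∀ c c', |W c - W c'| ≤ T ^ (del1 - 1) * ‖c - c'‖

/-- side of the cells -/
noncomputable def Lx (T : ℝ) : ℝ := T ^ (277 / 500 : ℝ)

/-- the small exponent; proofs use only `0 < rho0 ≤ 1/1000` (`rho0_pos`, `rho0_le`) -/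
noncomputable def rho0 : ℝ := 1 / 10 ^ 40

theorem rho0_pos : 0 < rho0 := by unfold rho0; norm_num

theorem rho0_le : rho0 ≤ 1 / 1000 := by unfold rho0; norm_num

/-- length of the radial windows, `r T` with `r = T ^ (.338 + 2 rho0)` -/
noncomputable def Rx (T : ℝ) : ℝ := T ^ (669 / 500 + 2 * rho0)

/-- the target for the second moment, `T ^ (2 + rho0)` (and `L³ r = T ^ (2 + 2 rho0)`) -/
noncomputable def Bx (T : ℝ) : ℝ := T ^ (2 + rho0)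

/-- the kernel at the scales of `T` -/
noncomputable def Fx (M T e : ℝ) (p : ℝ × ℝ) (W : R6 → ℝ) (x y : R6) : ℝ :=
  FF M (Lx T) (Rx T) e p W x y

/-- pairs with the integer difference `h`, at the scales of `T` -/
noncomputable def fx (M T e : ℝ) (p : ℝ × ℝ) (W : R6 → ℝ) (h : Z6) (x : R6) : ℝ :=
  Fx M T e p W x (x + r3 h)

/-- middle value of the three sup norms -/
noncomputable def V2 (h : Z6) : ℝ :=
  max (min ‖h.1‖ ‖h.2.1‖) (max (min ‖h.1‖ ‖h.2.2‖) (min ‖h.2.1‖ ‖h.2.2‖))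

/-- no component of `h` is zero -/
def NZ (h : Z6) : Prop := h.1 ≠ 0 ∧ h.2.1 ≠ 0 ∧ h.2.2 ≠ 0

/-! ## The five inputs -/

/-- (D) + (Z): some component of `h` is zero. -/
def DZStmt : Prop := ∃ del1 : ℝ, 0 < del1 ∧ ∀ M : ℝ, 1 ≤ M → ∀ e : ℝ, 0 < e → ∀ p : ℝ × ℝ,
  ∃ C T0 : ℝ, 1 ≤ C ∧ 1 ≤ T0 ∧ ∀ T : ℝ, T0 ≤ T → ∀ W : R6 → ℝ, Adm T del1 W →
  ∀ H : Finset Z6, (∀ h ∈ H, ¬ NZ h) →
    ∑ h ∈ H, ∑' x : Z6, fx M T e p W h (r3 x) ≤ C * Bx T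

/-- (N): no component is zero, middle size at most `T ^ .3385`. -/
def NStmt : Prop := ∃ del1 : ℝ, 0 < del1 ∧ ∀ M : ℝ, 1 ≤ M → ∀ e : ℝ, 0 < e → ∀ p : ℝ × ℝ,
  ∃ C T0 : ℝ, 1 ≤ C ∧ 1 ≤ T0 ∧ ∀ T : ℝ, T0 ≤ T → ∀ W : R6 → ℝ, Adm T del1 W →
  ∀ H : Finset Z6, (∀ h ∈ H, NZ h ∧ V2 h ≤ T ^ (677 / 2000 : ℝ)) →
    ∑ h ∈ H, ∑' x : Z6, fx M T e p W h (r3 x) ≤ C * Bx T

/-- (M): no component is zero, middle size larger than `T ^ .3385`. -/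
def MStmt : Prop := ∃ del1 : ℝ, 0 < del1 ∧ ∀ M : ℝ, 1 ≤ M → ∀ e : ℝ, 0 < e → ∀ p : ℝ × ℝ,
  ∃ C T0 : ℝ, 1 ≤ C ∧ 1 ≤ T0 ∧ ∀ T : ℝ, T0 ≤ T → ∀ W : R6 → ℝ, Adm T del1 W →
  ∀ H : Finset Z6, (∀ h ∈ H, NZ h ∧ T ^ (677 / 2000 : ℝ) < V2 h) →
    ∑ h ∈ H, |∑' x : Z6, fx M T e p W h (r3 x) - ∫ x, fx M T e p W h x| ≤ C * Bx T

/-- (K0): the terms `k = 0`. -/
def K0Stmt : Prop := ∃ del1 : ℝ, 0 < del1 ∧ ∀ M : ℝ, 1 ≤ M → ∀ e : ℝ, 0 < e → ∀ p : ℝ × ℝ,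
  ∃ C T0 : ℝ, 1 ≤ C ∧ 1 ≤ T0 ∧ ∀ T : ℝ, T0 ≤ T → ∀ W : R6 → ℝ, Adm T del1 W →
  ∀ H : Finset Z6,
    ∑ h ∈ H, ∫ x, fx M T e p W h x ≤ (∫ z : R6 × R6, Fx M T e p W z.1 z.2) + C * Bx T

/-- (X): the cross term. -/
def XStmt : Prop := ∃ del1 : ℝ, 0 < del1 ∧ ∀ M : ℝ, 1 ≤ M → ∀ e : ℝ, 0 < e → ∀ p : ℝ × ℝ,
  ∃ C T0 : ℝ, 1 ≤ C ∧ 1 ≤ T0 ∧ ∀ T : ℝ, T0 ≤ T → ∀ W : R6 → ℝ, Adm T del1 W →
    (∫ z : R6 × R6, Fx M T e p W z.1 z.2) ≤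
      (∑' x : Z6, ∫ y, Fx M T e p W (r3 x) y) + C * Bx T

end Pool.Agent.F5H
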