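import Pool.Agent.F5H.Defs
import Pool.Agent.Helper48_F5.Scal
import Pool.Agent.Helper96_GN.R6

/-!
MP_f5cbfa_nt, squad F5H, block LIP: regions of midpoints, the field of forms, and the statements

`FUPStmt` (pointwise bound and support of `fx`), `LKStmt` (Lipschitz bound of `fx`),
`LIPStmt` (lattice sum of `fx` against the integral, one difference `h`).

`m = x + h/2` is the midpoint.  `Z = Zf T m h` is the form with `Z (m_l) + Z (h_l)/4 = T²`,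
`Ff T m h l = Z (m_l, h_l)`, `Gf T m h v l` the derivative of `Ff` in the direction `v`
(`Pool/Agent/Helper48_F5/{Lin,Sol,Est,Scal}.lean`).
-/

set_option autoImplicit false

open MeasureTheory Filter Topology
open scoped ENNReal

namespace Pool.Agent.F5H

open Pool.Agent.BTL Pool.Agent.F5S Pool.Agent.Helper48_F5 Pool.Agent.Helper96_GN

/-- a triple as a function of the index -/
def t3 (x : R6) : T3 := ![x.1, x.2.1, x.2.2]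

/-- small loss, `T ^ (10⁻¹⁰)`; only powers `Px T ^ c`, `c ≤ 1000`, are lost -/
noncomputable def Px (T : ℝ) : ℝ := T ^ (rho0 / 10000)

/-- midpoint of `x` and `x + h` -/
noncomputable def mid (h x : R6) : R6 := x + (1 / 2 : ℝ) • h

/-- the region of level `a` of the midpoints: sizes, directions, tube, window, `Z` definite -/
structure Lev (a T : ℝ) (h m : R6) : Prop where
  hm : ∀ l, ‖t3 m l‖ ≤ a * T
  hd : ∀ i j, i ≠ j → T ^ 2 / (a * Px T) ≤ |dr (t3 m i) (t3 m j)|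
  hh : ‖h‖ ≤ a * Lx T
  hF : ∀ i j, |Ff T (t3 m) (t3 h) i - Ff T (t3 m) (t3 h) j| ≤ a * Px T
  hR : ∀ i, |Ff T (t3 m) (t3 h) i| ≤ a * Px T * Rx T
  hZ : Zf T (t3 m) (t3 h) ∈ KM (a * Px T)

/-- Euclidean product of triples -/
def ip (v m : T3) : ℝ := ∑ l, ((v l).1 * (m l).1 + (v l).2 * (m l).2)

/-- radial coordinate: `v = nu m v • m + w`, `w` orthogonal to `m` -/
noncomputable def nu (m v : T3) : ℝ := ip v m / ip m m

/-- tangential weight `κ = (V/T)^(1/2)` -/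
noncomputable def kap (T V : ℝ) : ℝ := Real.sqrt (V / T)

/-- radial weight `max (κ³, T^(-.97))` -/
noncomputable def kapr (T V : ℝ) : ℝ := max (kap T V ^ 3) (T ^ (-(97 / 100 : ℝ)))

/-- the square of the norm `N` of the field in a good point, without the factor `T^s` -/
noncomputable def qN (T : ℝ) (h m v : R6) : ℝ :=
  (Gf T (t3 m) (t3 h) (t3 v) 0 - Gf T (t3 m) (t3 h) (t3 v) 2) ^ 2 +
    (Gf T (t3 m) (t3 h) (t3 v) 1 - Gf T (t3 m) (t3 h) (t3 v) 2) ^ 2 +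
    kap T ‖h‖ ^ 2 * ip (t3 v - nu (t3 m) (t3 v) • t3 m) (t3 v - nu (t3 m) (t3 v) • t3 m) +
    (kapr T ‖h‖ * T * nu (t3 m) (t3 v)) ^ 2

/-- the dual points of the box `T^s N ≤ 1` in `m` (with loss `Px T`) -/
def DK (T : ℝ) (h m : R6) : Set Z6 :=
  {k | k ≠ 0 ∧ ∀ v : R6, (dot6 k v) ^ 2 ≤ Px T ^ 2 * (T ^ (6 * rho0) * qN T h m v)}

/-- UPPER BOUND AND SUPPORT of `fx`. -/
def FUPStmt : Prop := ∃ del1 : ℝ, 0 < del1 ∧ ∀ M : ℝ, 1 ≤ M → ∀ e : ℝ, 0 < e → ∀ p : ℝ × ℝ,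
  ∃ T0 : ℝ, 1 ≤ T0 ∧ ∀ T : ℝ, T0 ≤ T → ∀ W : R6 → ℝ, Adm T del1 W → ∀ h : Z6, ∀ x : R6,
    0 ≤ fx M T e p W h x ∧ fx M T e p W h x ≤ Px T ^ 100 * (T ^ 4)⁻¹ ∧
    (fx M T e p W h x ≠ 0 → Lev 4 T (r3 h) (mid (r3 h) x))

/-- LIPSCHITZ BOUND of `fx` along a small vector `v`, given the change `η` of the tube functions. -/
def LKStmt : Prop := ∃ del1 : ℝ, 0 < del1 ∧ ∀ M : ℝ, 1 ≤ M → ∀ e : ℝ, 0 < e → ∀ p : ℝ × ℝ,
  ∃ T0 : ℝ, 1 ≤ T0 ∧ ∀ T : ℝ, T0 ≤ T → ∀ W : R6 → ℝ, Adm T del1 W → ∀ h : Z6, ∀ x v : R6,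
    Lev 7 T (r3 h) (mid (r3 h) x) → Lev 7 T (r3 h) (mid (r3 h) (x + v)) →
    ∀ η : ℝ, T ^ (-(1 / 100 : ℝ)) ≤ η → η ≤ 1 → ‖v‖ ≤ η * T →
    (∀ i j, |(Ff T (t3 (mid (r3 h) (x + v))) (t3 (r3 h)) i -
        Ff T (t3 (mid (r3 h) (x + v))) (t3 (r3 h)) j) -
      (Ff T (t3 (mid (r3 h) x)) (t3 (r3 h)) i - Ff T (t3 (mid (r3 h) x)) (t3 (r3 h)) j)| ≤ η) →
    |Ff T (t3 (mid (r3 h) (x + v))) (t3 (r3 h)) 2 - Ff T (t3 (mid (r3 h) x)) (t3 (r3 h)) 2| ≤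
      η * Rx T →
    |fx M T e p W h (x + v) - fx M T e p W h x| ≤ Px T ^ 200 * (T ^ 4)⁻¹ * η

/-- THE LATTICE SUM for one difference `h`: final statement of the block, for the assembly of `MStmt`. -/
def LIPStmt : Prop := ∃ del1 : ℝ, 0 < del1 ∧ ∀ M : ℝ, 1 ≤ M → ∀ e : ℝ, 0 < e → ∀ p : ℝ × ℝ,
  ∃ T0 : ℝ, 1 ≤ T0 ∧ ∀ T : ℝ, T0 ≤ T → ∀ W : R6 → ℝ, Adm T del1 W → ∀ h : Z6, h ≠ 0 →
    ENNReal.ofReal |∑' x : Z6, fx M T e p W h (r3 x) - ∫ x, fx M T e p W h x| ≤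
      ENNReal.ofReal (Px T ^ 500 * (T ^ 4)⁻¹) * ∫⁻ m in {m | Lev 6 T (r3 h) m},
        (ENNReal.ofReal (T ^ (-(2 * rho0))) + ((DK T (r3 h) m).ncard : ℝ≥0∞))

end Pool.Agent.F5H
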