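import Pool.Agent.F5H.Defs

/-!
MP_f5cbfa_nt, squad F5H, block A: the assembly of `HARDStmt` from the five inputs.
Statements with complete proofs in the docstrings.  Each `def XStmt : Prop` is one row.
-/

set_option autoImplicit false

open MeasureTheory Filter Topology

namespace Pool.Agent.F5H

open Pool.Agent.BTL Pool.Agent.F5S

/-- one triple seen from the radial window around `σ` -/
noncomputable def gg (R e : ℝ) (p : ℝ × ℝ) (A : ℝ × ℝ × ℝ) (σ : ℝ) (x : R6) : ℝ :=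
  ∫ s, tn ((s - σ) / R) * KA e p A s x

/-- lattice sum of the class `(c, σ)` -/
noncomputable def nn (T L R e : ℝ) (p : ℝ × ℝ) (A : ℝ × ℝ × ℝ) (z : R6 × ℝ) : ℝ :=
  ∑ t ∈ ball (4 * T) ×ˢ (ball (4 * T) ×ˢ ball (4 * T)), cl6 L z.1 (r3 t) * gg R e p A z.2 (r3 t)

/-- integral of the class `(c, σ)` -/
noncomputable def mm (L R e : ℝ) (p : ℝ × ℝ) (A : ℝ × ℝ × ℝ) (z : R6 × ℝ) : ℝ :=
  ∫ x, cl6 L z.1 x * gg R e p A z.2 x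

/-- the second moment over the classes for the form `A` -/
noncomputable def VA (T L R e : ℝ) (p : ℝ × ℝ) (W : R6 → ℝ) (A : ℝ × ℝ × ℝ) : ℝ :=
  ∫ z : R6 × ℝ, W z.1 * (nn T L R e p A z - mm L R e p A z) ^ 2

/-- KAF. Product of three tents (uses TNF KKF of F5S). Proof: factors in `[0,1]`, `tn` and `qf`
continuous, `tn u ≠ 0` implies `|u| < 1`. Integral: substitute `s ↦ s + qf A x.2.2`
(`integral_add_right_eq_self` or `integral_sub_left_eq_self`) in `kk e (difr A x - p)`, with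
`y = difr A x - p`: `y.1 + y.2 = qf A x.1 - (p.1 + p.2) - qf A x.2.2`,
`y.2 = qf A x.2.1 - p.2 - qf A x.2.2`, and `tn` is even. -/
def KAFStmt : Prop := ∀ e : ℝ, 0 < e → ∀ p : ℝ × ℝ,
  (∀ A s x, 0 ≤ KA e p A s x ∧ KA e p A s x ≤ 1) ∧
  Continuous (fun z : (ℝ × ℝ × ℝ) × ℝ × R6 => KA e p z.1 z.2.1 z.2.2) ∧
  (∀ A s x, KA e p A s x ≠ 0 → |qf A x.1 - (p.1 + p.2) - s| < e ∧ |qf A x.2.1 - p.2 - s| < e ∧
    |qf A x.2.2 - s| < e) ∧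
  (∀ A x, Integrable (fun s => KA e p A s x) ∧ ∫ s, KA e p A s x = kk e (difr A x - p))

/-- PRF. Radial kernel (uses TNF). Proof: `0 ≤ tn ≤ 1` and `∫ tn (σ/R) = R`; if `PR R u ≠ 0` there is
`σ` with `|u - σ| < R`, `|σ| < R`. Lipschitz: `|tn ((u-σ)/R) - tn ((v-σ)/R)| ≤ |u-v|/R`, integrate
against `tn (σ/R)`. Last part: translation `σ ↦ σ - b` in `PR R (a - b)` (`integral_sub_right_eq_self`)
and evenness of `tn`. -/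
def PRFStmt : Prop := ∀ R : ℝ, 0 < R →
  (∀ u, 0 ≤ PR R u ∧ PR R u ≤ 1) ∧ (∀ u, PR R u ≠ 0 → |u| < 2 * R) ∧
  (∀ u v, |PR R u - PR R v| ≤ |u - v| / R) ∧
  (∀ a b : ℝ, Integrable (fun σ => tn ((a - σ) / R) * tn ((b - σ) / R)) ∧
    ∫ σ, tn ((a - σ) / R) * tn ((b - σ) / R) = R * PR R (a - b))

/-- CLF. Cells (uses TNF). Proof: products of tents; `tn ((x - c)/L) ≠ 0` gives `|x - c| < L` in all six
coordinates. -/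
def CLFStmt : Prop := ∀ L : ℝ, 0 < L →
  (∀ c x, 0 ≤ cl6 L c x ∧ cl6 L c x ≤ 1) ∧ Continuous (fun z : R6 × R6 => cl6 L z.1 z.2) ∧
  (∀ c x, cl6 L c x ≠ 0 → ‖x - c‖ ≤ L) ∧ (∀ c x, pw L c x = (L ^ 6)⁻¹ * cl6 L c x)

/-- CHK. Weight of the forms. Proof: with `a, b, c` the entries, `qf A x - μ nr x` is the form
`(a-μ, b, c-μ)`. If `A ∈ KM M` it is `≥ 0` for `μ = 1/M`, so `b² ≤ (a-μ)(c-μ)`, `a ≥ μ`, `c ≥ μ`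
(`discrim_le_zero`), hence `√(((a-c)/2)² + b²) ≤ (a+c)/2 - μ`, `lmin ≥ 1/M`; the same for `lmax ≤ M`.
Conversely `lmin nr x ≤ qf A x ≤ lmax nr x` for all `x` (`b² = (a-lmin)(c-lmin)`), and `chK ≠ 0`
gives `lmin > 1/(2M)`, `lmax < 2M`. Lipschitz: `cl` is 1-Lipschitz and `≤ 1`;
`√(u² + v²)` is 2-Lipschitz for the sup norm, so `lmin`, `lmax` are 3-Lipschitz. -/
def CHKStmt : Prop := ∀ M : ℝ, 1 ≤ M →
  (∀ A, 0 ≤ chK M A ∧ chK M A ≤ 1) ∧ (∀ A ∈ KM M, chK M A = 1) ∧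
  (∀ A, chK M A ≠ 0 → A ∈ KM (2 * M)) ∧ (∀ A A', |chK M A - chK M A'| ≤ 12 * M * ‖A - A'‖)

/-- GGF. One triple in a window (uses TNF KAF PRF). Proof: the integrand is continuous in
`(A, σ, x, s)` and zero for `|s - qf A x.2.2| ≥ e`; measurability by
`StronglyMeasurable.integral_prod_right`. Bound: `∫ tn ((s - qf A x.2.2)/e) = e`. Support: take `s`
with `|s - σ| < R` and `KA ≠ 0`. Integrals over `σ`: Fubini (the integrand is bounded and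
zero for `|s - qf A x.2.2| ≥ e` or `|s - σ| ≥ R`), `∫ tn ((s-σ)/R) dσ = R`, and for the product
`gg σ x * gg σ y = ∫ z : ℝ × ℝ, tn tn KA KA` (`integral_prod_mul`), then PRF. -/
def GGFStmt : Prop := ∀ R e : ℝ, 0 < R → 0 < e → ∀ p : ℝ × ℝ,
  Measurable (fun z : (ℝ × ℝ × ℝ) × ℝ × R6 => gg R e p z.1 z.2.1 z.2.2) ∧
  (∀ A σ x, 0 ≤ gg R e p A σ x ∧ gg R e p A σ x ≤ e) ∧
  (∀ A σ x, gg R e p A σ x ≠ 0 → |qf A x.1 - (p.1 + p.2) - σ| ≤ R + e ∧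
    |qf A x.2.1 - p.2 - σ| ≤ R + e ∧ |qf A x.2.2 - σ| ≤ R + e) ∧
  (∀ A x, Integrable (fun σ => gg R e p A σ x) ∧
    ∫ σ, gg R e p A σ x = R * kk e (difr A x - p)) ∧
  (∀ A x y, ∫ σ, gg R e p A σ x * gg R e p A σ y = R * RV R e p A x y)

/-- FAF. Facts on the kernel of a pair (uses KAF PRF CLF CHK). Proof: `WC ≥ 0` and
`WC ≤ (L⁶)⁻¹ (2L)⁶ = 64` (`cl6 L c x ≤ 1`, zero unless `‖x - c‖ ≤ L`); `0 ≤ RV ≤ (2e)²`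
(`KA ≤ tn ((s - qf A x.2.2)/e)`, in fact `≤ e²`). Measurability: parametric integrals of jointly
measurable functions (`StronglyMeasurable.integral_prod_right`). Support: if `FA ≠ 0` then `WC ≠ 0`, so
some `c` has `W c ≠ 0`, `cl6 L c x ≠ 0`, `cl6 L c y ≠ 0`. `FF`: `chK M` is bounded by one and zero
outside the bounded set `KM (2M)`, `KM_abs_le` (`‖A‖ ≤ 2M`), of volume `≤ (4M)³`. -/
def FAFStmt : Prop := ∀ M L R e : ℝ, 1 ≤ M → 0 < L → 0 < R → 0 < e → ∀ (p : ℝ × ℝ) (W : R6 → ℝ),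
  Measurable W → (∀ c, 0 ≤ W c ∧ W c ≤ 1) →
  Measurable (fun z : (ℝ × ℝ × ℝ) × R6 × R6 => FA L R e p W z.1 z.2.1 z.2.2) ∧
  (∀ A x y, 0 ≤ FA L R e p W A x y ∧ FA L R e p W A x y ≤ 64 * (4 * e ^ 2)) ∧
  (∀ A x y, FA L R e p W A x y ≠ 0 → ∃ c, W c ≠ 0 ∧ ‖x - c‖ ≤ L ∧ ‖y - c‖ ≤ L) ∧
  Measurable (fun z : R6 × R6 => FF M L R e p W z.1 z.2) ∧
  (∀ x y, 0 ≤ FF M L R e p W x y ∧ FF M L R e p W x y ≤ (4 * M) ^ 3 * (64 * (4 * e ^ 2))) ∧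
  (∀ x y, FF M L R e p W x y ≠ 0 → ∃ c, W c ≠ 0 ∧ ‖x - c‖ ≤ L ∧ ‖y - c‖ ≤ L)

/-- GEN. Fubini for two finite measures (uses CLF GGF). Proof: the product of the two inner integrals is
the integral of `cl6 z.1 x * gg z.2 x * (cl6 z.1 y * gg z.2 y)` over `ν.prod ν'` (`integral_prod_mul`).
The function `(z, (x, y)) ↦ W z.1 * (..)` is measurable, bounded by `e²`, and for a.e. `(x,y)` zero
unless `‖z.1‖ ≤ ρ` and `|z.2| ≤ 4 ‖A‖ ρ² + R + e` (`|qf A u| ≤ 4 ‖A‖ ‖u‖²`, GGF), so it is integrable on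
`volume.prod (ν.prod ν')`; swap (`integral_integral_swap`), and for fixed `(x,y)` the integral over
`z : R6 × ℝ` is the product `(∫ c, W c * (cl6 * cl6)) * ∫ σ, gg * gg = L⁶ WC * (R RV)`
(`integral_prod_mul`, GGF). -/
def GENStmt : Prop := ∀ L R e ρ : ℝ, 0 < L → 0 < R → 0 < e → 0 < ρ → ∀ (p : ℝ × ℝ) (W : R6 → ℝ),
  Measurable W → (∀ c, 0 ≤ W c ∧ W c ≤ 1) → (∀ c, W c ≠ 0 → ‖c‖ ≤ ρ) →
  ∀ (A : ℝ × ℝ × ℝ) (ν ν' : Measure R6) [IsFiniteMeasure ν] [IsFiniteMeasure ν'],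
  (∀ᵐ x ∂ν, ‖x‖ ≤ ρ) → (∀ᵐ x ∂ν', ‖x‖ ≤ ρ) →
  Integrable (fun z : R6 × ℝ => W z.1 * ((∫ x, cl6 L z.1 x * gg R e p A z.2 x ∂ν) *
    (∫ y, cl6 L z.1 y * gg R e p A z.2 y ∂ν'))) ∧
  ∫ z : R6 × ℝ, W z.1 * ((∫ x, cl6 L z.1 x * gg R e p A z.2 x ∂ν) *
    (∫ y, cl6 L z.1 y * gg R e p A z.2 y ∂ν')) =
    L ^ 6 * R * ∫ z : R6 × R6, FA L R e p W A z.1 z.2 ∂(ν.prod ν')

/-- VAE. The second moment for a form (uses GEN CLF). Proof: let `ν₁ = ∑_{t ∈ B³} dirac (r3 t)`,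
`B = ball (4T)`, and `ν₂ = volume.restrict (closedBall 0 (4T))`. `nn z` is the integral for `ν₁`
(`integral_finset_sum_measure`, `integral_dirac`), and if `W z.1 ≠ 0` then `‖z.1‖ ≤ 2T`, so `mm z` is the integral for
`ν₂` (`cl6 ≠ 0` gives `‖x - z.1‖ ≤ L ≤ 2T`). `W (nn - mm)² = W nn² - 2 W nn mm + W mm²`, GEN three
times with `ρ = 4T`. -/
def VAEStmt : Prop := ∀ T L R e : ℝ, 0 < T → 0 < L → L ≤ 2 * T → 0 < R → 0 < e →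
  ∀ (p : ℝ × ℝ) (W : R6 → ℝ), Measurable W → (∀ c, 0 ≤ W c ∧ W c ≤ 1) →
  (∀ c, W c ≠ 0 → nle (2 * T) c) → ∀ (A : ℝ × ℝ × ℝ) (ν₁ ν₂ : Measure R6),
  ν₁ = ∑ t ∈ ball (4 * T) ×ˢ (ball (4 * T) ×ˢ ball (4 * T)), Measure.dirac (r3 t) →
  ν₂ = volume.restrict (Metric.closedBall 0 (4 * T)) →
  Integrable (fun z : R6 × ℝ => W z.1 * (nn T L R e p A z - mm L R e p A z) ^ 2) ∧
  VA T L R e p W A = L ^ 6 * R * ((∫ z : R6 × R6, FA L R e p W A z.1 z.2 ∂(ν₁.prod ν₁)) -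
    2 * (∫ z : R6 × R6, FA L R e p W A z.1 z.2 ∂(ν₁.prod ν₂)) +
    ∫ z : R6 × R6, FA L R e p W A z.1 z.2 ∂(ν₂.prod ν₂))

/-- AVG. Averaging over the forms (uses CHK FAF). Proof: the function `(A, z) ↦ chK M A * FA A z.1 z.2`
is measurable, bounded, and zero unless `A ∈ KM (2M)`, a set of finite volume; `ν` is finite;
`integral_integral_swap`. -/
def AVGStmt : Prop := ∀ M L R e : ℝ, 1 ≤ M → 0 < L → 0 < R → 0 < e → ∀ (p : ℝ × ℝ) (W : R6 → ℝ),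
  Measurable W → (∀ c, 0 ≤ W c ∧ W c ≤ 1) → ∀ (ν : Measure (R6 × R6)) [IsFiniteMeasure ν],
  Integrable (fun A => chK M A * ∫ z, FA L R e p W A z.1 z.2 ∂ν) ∧
  ∫ A, chK M A * ∫ z, FA L R e p W A z.1 z.2 ∂ν = ∫ z, FF M L R e p W z.1 z.2 ∂ν

/-- SUM. The three measures (uses FAF). Proof: all `x` with `FF x y ≠ 0` or `FF y x ≠ 0` have
`‖x‖ ≤ 2T + L < 4T` and in the lattice case `r3 t` with `nz < (4T)²`: `nle (2T) c` and `‖x - c‖ ≤ L`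
give `nr x_l ≤ (2T + √2 L)² < (4T)²`, use `L ≤ T`, so `t ∈ B³` for every integer triple `t` with
`FF (r3 t) y ≠ 0`. (1) `∫ ∂(ν₁.prod ν₁) = ∑_{t,u ∈ B³} FF (r3 t) (r3 u)`; put
`H = image (fun q => q.2 - q.1) (B³ ×ˢ B³)`; for `h ∈ H`, `∑' x` is the sum over `x ∈ B³` with
`x + h ∈ B³` (`tsum_eq_sum`). (2) `∫ ∂(ν₁.prod ν₂) = ∑_{t ∈ B³} ∫_{closedBall} FF (r3 t) y` and the
restriction is void. (3) the same. (`integral_prod`, `integral_finset_sum_measure`,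
`integral_dirac`, `setIntegral_eq_integral_of_forall_compl_eq_zero`.) -/
def SUMStmt : Prop := ∀ M T L R e : ℝ, 1 ≤ M → 0 < T → 0 < L → L ≤ T → 0 < R → 0 < e →
  ∀ (p : ℝ × ℝ) (W : R6 → ℝ), Measurable W → (∀ c, 0 ≤ W c ∧ W c ≤ 1) →
  (∀ c, W c ≠ 0 → nle (2 * T) c) → ∀ (ν₁ ν₂ : Measure R6),
  ν₁ = ∑ t ∈ ball (4 * T) ×ˢ (ball (4 * T) ×ˢ ball (4 * T)), Measure.dirac (r3 t) →
  ν₂ = volume.restrict (Metric.closedBall 0 (4 * T)) →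
  (∃ H : Finset Z6, ∫ z : R6 × R6, FF M L R e p W z.1 z.2 ∂(ν₁.prod ν₁) =
    ∑ h ∈ H, ∑' x : Z6, FF M L R e p W (r3 x) (r3 x + r3 h)) ∧
  ∫ z : R6 × R6, FF M L R e p W z.1 z.2 ∂(ν₁.prod ν₂) =
    ∑' x : Z6, ∫ y, FF M L R e p W (r3 x) y ∧
  ∫ z : R6 × R6, FF M L R e p W z.1 z.2 ∂(ν₂.prod ν₂) =
    ∫ z : R6 × R6, FF M L R e p W z.1 z.2

/-- SEC. The bound for the second moment (uses VAE AVG SUM FAF DZ N M K0 X). Proof: let `del1` be the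
minimum of the five (and `1/10`), `T0` the maximum, `Adm T del1 W` implies `Adm T del1' W` for `del1 ≤ del1'` (`T ≥ 1`). By VAE and AVG
`∫ chK VA = L⁶ R (S11 - 2 S12 + S22)`. By SUM `S11 = ∑_{h ∈ H} S(h)`; split `H = H0 ∪ H1 ∪ H2`
(`¬ NZ`, `NZ ∧ V2 ≤`, `NZ ∧ V2 >`). `S11 ≤ C Bx + C Bx + ∑_{H2} |S(h) - I(h)| + ∑_{H2} I(h) ≤
3 C Bx + S22 + C Bx` (K0 for the finite set `H2`), and `S22 - S12 ≤ C Bx` (X). So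
`S11 - 2 S12 + S22 ≤ 4 C Bx + 2 (S22 - S12) ≤ 6 C Bx`. `L = Lx T ≤ T`. -/
def SECStmt : Prop := ∃ del1 : ℝ, 0 < del1 ∧ del1 < 2 / 5 ∧ ∀ M : ℝ, 1 ≤ M → ∀ e : ℝ, 0 < e →
  ∀ p : ℝ × ℝ, ∃ C T0 : ℝ, 1 ≤ C ∧ 1 ≤ T0 ∧ ∀ T : ℝ, T0 ≤ T → ∀ W : R6 → ℝ, Adm T del1 W →
  Integrable (fun A => chK M A * VA T (Lx T) (Rx T) e p W A) ∧
  ∫ A, chK M A * VA T (Lx T) (Rx T) e p W A ≤ Lx T ^ 6 * Rx T * (C * Bx T)

/-- EX1. The difference as an integral over the classes (uses KAF CLF GGF, WBF of F5S if convenient).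
Proof: `Wb L W x = (L⁶)⁻¹ ∫ c, W c * cl6 L c x`, `kk e (difr A x - p) = R⁻¹ ∫ σ, gg σ x`, so
`Wb L W x * kk e (difr A x - p) = (L⁶ R)⁻¹ ∫ z : R6 × ℝ, W z.1 * (cl6 L z.1 x * gg z.2 x)`
(`integral_prod_mul`); `difr A (r3 t) = dif A t`. Sum over `t` (`integral_finset_sum`), and Fubini for
the integral over `x`: the function is bounded, measurable, zero unless `‖z.1‖ ≤ ρ`,
`‖x‖ ≤ ρ + L`, `|z.2| ≤ 4 ‖A‖ (ρ + L)² + R + e`. -/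
def EX1Stmt : Prop := ∀ T L R e ρ : ℝ, 0 < L → 0 < R → 0 < e → 0 < ρ → ∀ (p : ℝ × ℝ) (W : R6 → ℝ),
  Measurable W → (∀ c, 0 ≤ W c ∧ W c ≤ 1) → (∀ c, W c ≠ 0 → ‖c‖ ≤ ρ) → ∀ A : ℝ × ℝ × ℝ,
  Integrable (fun z : R6 × ℝ => W z.1 * (nn T L R e p A z - mm L R e p A z)) ∧
  SW T L e W p A - IW L e W p A =
    (L ^ 6 * R)⁻¹ * ∫ z : R6 × ℝ, W z.1 * (nn T L R e p A z - mm L R e p A z)

/-- SPT. Number of classes (uses CLF GGF; `areaAnn : S_area_annulus` of BTL.Assembly, take it as a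
hypothesis). Proof: if `nle (2T) c`, `cl6 L c x ≠ 0` and `gg σ x ≠ 0`, then `‖x_l - c_l‖ ≤ L ≤ T`, so
`|qf A c_l - qf A x_l| ≤ 4 ‖A‖ L (‖c_l‖ + ‖x_l‖) ≤ 20 M T L` (`KM_abs_le`), `|qf A x_l - σ| ≤ R + e +
|p.1| + |p.2| ≤ (1 + e + |p.1| + |p.2|) T L`, so `|qf A c_l - σ| ≤ K T L` with
`K = 20 M + 1 + e + |p.1| + |p.2|`, and `|σ| ≤ (4 M + K) T²` (as `0 ≤ qf A c_l ≤ M nr c_l`, `L ≤ T`). Let `S` be the
set of `(c, σ)` with these inequalities; its volume is at most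
`2 (4M + K) T² (4 M · 2 K T L)³` (product over `l`, areaAnn). -/
def SPTStmt : Prop := ∀ M : ℝ, 1 ≤ M → ∀ e : ℝ, 0 < e → ∀ p : ℝ × ℝ, ∃ C : ℝ, 1 ≤ C ∧
  ∀ A ∈ KM M, ∀ T L R : ℝ, 1 ≤ T → 1 ≤ L → L ≤ T → 0 < R → R ≤ T * L →
  ∃ S : Set (R6 × ℝ), MeasurableSet S ∧ volume S ≤ ENNReal.ofReal (C * (T ^ 5 * L ^ 3)) ∧
    ∀ (c : R6) (σ : ℝ), nle (2 * T) c → (c, σ) ∉ S → ∀ x, cl6 L c x * gg R e p A σ x = 0

/-- ONE. One form (uses EX1 SPT VAE). Proof: on the complement of `S`, `W (nn - mm) = 0`; on `S`,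
`|W (nn - mm)| ≤ μ/2 + W (nn - mm)²/(2μ)` (`0 ≤ W ≤ 1`, `ab ≤ (a² + b²)/2`). Integrate:
`|SW - IW| ≤ (L⁶ R)⁻¹ (μ vol S / 2 + VA / (2μ))`. -/
def ONEStmt : Prop := ∀ M : ℝ, 1 ≤ M → ∀ e : ℝ, 0 < e → ∀ p : ℝ × ℝ, ∃ C : ℝ, 1 ≤ C ∧
  ∀ A ∈ KM M, ∀ T L R μ : ℝ, 1 ≤ T → 1 ≤ L → L ≤ T → 0 < R → R ≤ T * L → 0 < μ →
  ∀ W : R6 → ℝ, Measurable W → (∀ c, 0 ≤ W c ∧ W c ≤ 1) → (∀ c, W c ≠ 0 → nle (2 * T) c) →
  |SW T L e W p A - IW L e W p A| ≤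
    (L ^ 6 * R)⁻¹ * (μ * (C * (T ^ 5 * L ^ 3)) + VA T L R e p W A / μ)

/-- SML. Small `T` (uses TNF KKF PWF WBF of F5S). Proof: `0 ≤ Wb ≤ 1`, `0 ≤ kk ≤ e`, so `0 ≤ SW ≤ e` times the
number of triples, `≤ e * (card (ball (4 * T0))) ^ 3` (`ball_mono`); `Wb L W x ≠ 0` implies `near L c x` for
some `c` with `nle (2T) c`, so `‖x‖ ≤ 2 T + 2 L ≤ 4 T0` and `0 ≤ IW ≤ e * volume (closedBall 0 (4 * T0))`. -/
def SMLStmt : Prop := ∀ e : ℝ, 0 < e → ∀ T0 : ℝ, 1 ≤ T0 → ∃ C : ℝ, 1 ≤ C ∧ ∀ T : ℝ, 1 ≤ T → T ≤ T0 →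
  ∀ W : R6 → ℝ, Measurable W → (∀ c, 0 ≤ W c ∧ W c ≤ 1) → (∀ c, W c ≠ 0 → nle (2 * T) c) →
  ∀ (p : ℝ × ℝ) (A : ℝ × ℝ × ℝ), |SW T (Lx T) e W p A - IW (Lx T) e W p A| ≤ C

/-- FIN. The hard half (uses SEC ONE CHK SML). Proof: `lam = 277/500`, `del1` of SEC, `del = rho0/2`. For
`T < T0` use SML (`KM M` has finite volume and `T ^ (2 - del) ≥ 1`). For `T0 ≤ T`: `μ = T ^ (3 rho0/2)`,
`∫⁻_{KM M} |SW - IW| ≤ (L⁶R)⁻¹ (μ C T⁵ L³ vol (KM M) + μ⁻¹ ∫ chK VA)` (ONE, `chK = 1` on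
`KM M`, `VA ≥ 0`), and `(L⁶ R)⁻¹ μ T⁵ L³ = T^(3 rho0/2 + 5 - 831/500 - 669/500 - 2 rho0) = T^(2 - rho0/2)`,
`(L⁶ R)⁻¹ μ⁻¹ L⁶ R C Bx = C T^(2 + rho0 - 3 rho0/2) = C T^(2 - rho0/2)`. -/
def FINAStmt : Prop := HARDStmt

end Pool.Agent.F5H
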