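import Pool.Agent.F5H.Defs
import Pool.Agent.Helper68_F5.Defs
import Pool.Agent.Helper58_F5.Hess

/-!
MP_f5cbfa_nt, squad F5H, block C (matrix block and the count `CNT` of the dual vectors).

`CNTStmt` is the output of the block, for the assembly of `MStmt`.  The inputs are `F2Stmt`
(push-forward), `KC1Stmt`, `KC2Stmt` (the K-count for a fixed form; helper68, helper48).  `MAT`,
`LINK` and the final summation are helper58's.

CONVENTIONS.  `Q` stands for a power `T ^ ep`, `ep` small; every power `Q ^ c` with a numeral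
`c ≤ 10 ^ 4` is free, absolute constants are `≤ Q` (hypothesis `Q0 ≤ Q`), and `log T ≤ Q`.  The scale is
fixed by `S = T ^ 2`: the form of `(h, m)` is the form `A` with `A(m_l) + A(h_l) / 4 = T ^ 2` for
the three indices `l` (`m` is the midpoint `x + h / 2`).  A tangent vector of the cone `V_h` is a
`v` with a form `B`, `B(m_l) + B(h_l) / 4 = - 2 A(m_l, v_l)` and equal `G_l = A(v_l, h_l) +
B(m_l, h_l)`.

FRAME of a form `A`: `gA A : ℝ² → ℂ` linear with `|gA A x|² = A(x)`, and dually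
`k.x = re (conj (kA A k) * gA A x)`.  For `H : Fin 3 → ℂ` (the triple `gA A h_l`, the index `2` is
the smallest one), signs `ep` and an angle `th` the points are `m_l = rh T (H l) * wG .. l`, with
`wG .. 2 = exp (i th)` and all products `A(m_l, h_l)` equal.
-/

set_option autoImplicit false

open MeasureTheory Complex ComplexConjugate

namespace Pool.Agent.F5H.BC

open Pool.Agent.BTL Pool.Agent.F5S Pool.Agent.F5H

/-- symmetric bilinear form of `A` -/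
def bl (A : ℝ × ℝ × ℝ) (x y : ℝ × ℝ) : ℝ :=
  A.1 * (x.1 * y.1) + A.2.1 * (x.1 * y.2 + x.2 * y.1) + A.2.2 * (x.2 * y.2)

/-- the three components -/
def cp (x : R6) : Fin 3 → ℝ × ℝ := ![x.1, x.2.1, x.2.2]

/-- the triple with given components -/
def tr (f : Fin 3 → ℝ × ℝ) : R6 := (f 0, f 1, f 2)

/-- permutation of the components -/
def pm (s : Equiv.Perm (Fin 3)) (x : R6) : R6 := tr fun l => cp x (s l)

/-- the scalar product -/
def d6 (k v : R6) : ℝ := ∑ l, ((cp k l).1 * (cp v l).1 + (cp k l).2 * (cp v l).2)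

/-- `A` is the form of `(h, m)` -/
def Fo (T : ℝ) (h m : R6) (A : ℝ × ℝ × ℝ) : Prop :=
  ∀ l, qf A (cp m l) + qf A (cp h l) / 4 = T ^ 2

/-- `B` is the derivative of the form in the direction `v` -/
def dFo (h m : R6) (A : ℝ × ℝ × ℝ) (v : R6) (B : ℝ × ℝ × ℝ) : Prop :=
  ∀ l, qf B (cp m l) + qf B (cp h l) / 4 = -(2 * bl A (cp m l) (cp v l))

/-- `G_l[v]`: the derivative of `A(m_l, h_l)` -/
def Gf (h m : R6) (A B : ℝ × ℝ × ℝ) (v : R6) (l : Fin 3) : ℝ :=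
  bl A (cp v l) (cp h l) + bl B (cp m l) (cp h l)

/-- `kap = (V / T) ^ (1/2)` -/
noncomputable def kap (T V : ℝ) : ℝ := Real.sqrt (V / T)

/-- the radial window `max (kap ^ 3) (T ^ (-.97))` -/
noncomputable def kpr (T V : ℝ) : ℝ := max (kap T V ^ 3) (T ^ (-(97 / 100) : ℝ))

/-- `N*_(h,m)(k) ≤ Q` for the norm field
`N(v) = sum |G_i - G_j| + kap |w| + kap_r T |nu|`, `v = nu m + w` -/
def NB (Q T : ℝ) (h m k : R6) : Prop :=
  ∀ (A B : ℝ × ℝ × ℝ) (v w : R6) (nu : ℝ), Fo T h m A → dFo h m A v B → v = nu • m + w →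
    |d6 k v| ≤ Q * ((∑ i, ∑ j, |Gf h m A B v i - Gf h m A B v j|) + kap T ‖h‖ * ‖w‖ +
      kpr T ‖h‖ * T * |nu|)

/-- the support: `m` is near `V_h`, in the slab, with good angles -/
def Reg (Q T : ℝ) (h m : R6) : Prop :=
  ∃ A, A ∈ KM Q ∧ Fo T h m A ∧
    (∀ i j, |bl A (cp m i) (cp h i) - bl A (cp m j) (cp h j)| ≤ Q) ∧
    (∀ l, |bl A (cp m l) (cp h l)| ≤ Q * Rx T) ∧
    (∀ i j, i ≠ j → T ^ 2 ≤ Q * |dr (cp m i) (cp m j)|)

/-- OUTPUT of block C.  With `Q = T ^ ep`, `ep ≥ 4 rho0` (so `Px T ^ 100 * T ^ (3 rho0) ≤ Q`):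
`sum_h sum_(k ≠ 0) vol {m : Reg, NB k} ≤ C T ^ 5.9999`.  (The proof takes `ep = 4 rho0` and needs
`10 ^ 6 * ep` small, so `rho0` will be lowered at the end; no other block uses its value.) -/
def CNTStmt : Prop := ∃ ep : ℝ, 4 * rho0 ≤ ep ∧ ∃ C T0 : ℝ, 1 ≤ C ∧ 1 ≤ T0 ∧ ∀ T : ℝ, T0 ≤ T →
  ∀ H : Finset Z6, (∀ h ∈ H, NZ h ∧ T ^ (677 / 2000 : ℝ) < V2 h ∧ ‖r3 h‖ ≤ T ^ ep * Lx T) →
    ∑ h ∈ H, ∑' k : Z6, (if k = 0 then 0 else
      volume {m : R6 | Reg (T ^ ep) T (r3 h) m ∧ NB (T ^ ep) T (r3 h) m (r3 k)}) ≤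
    ENNReal.ofReal (C * T ^ (59999 / 10000 : ℝ))

/-! ### the frame -/

/-- the frame of `A` -/
noncomputable def gA (A : ℝ × ℝ × ℝ) (x : ℝ × ℝ) : ℂ :=
  ⟨√A.1 * x.1 + A.2.1 / √A.1 * x.2, √(disc A / A.1) * x.2⟩

/-- the dual frame of `A` -/
noncomputable def kA (A : ℝ × ℝ × ℝ) (k : ℝ × ℝ) : ℂ :=
  ⟨k.1 / √A.1, (√A.1 * k.2 - A.2.1 / √A.1 * k.1) / √(disc A)⟩

/-- the triple in the frame -/
noncomputable def hG (A : ℝ × ℝ × ℝ) (h : R6) (l : Fin 3) : ℂ := gA A (cp h l)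

/-- the dual triple in the frame -/
noncomputable def kG (A : ℝ × ℝ × ℝ) (k : R6) (l : Fin 3) : ℂ := kA A (cp k l)

/-- the radius of the point with difference `z` -/
noncomputable def rh (T : ℝ) (z : ℂ) : ℝ := √(T ^ 2 - ‖z‖ ^ 2 / 4)

/-- the directions of the three points -/
noncomputable def wG (T : ℝ) (H : Fin 3 → ℂ) (ep : Fin 3 → ℝ) (th : ℝ) (l : Fin 3) : ℂ :=
  if l = 2 then cexp ((th : ℂ) * I) else
    H l / (‖H l‖ : ℂ) *
      (((rh T (H 2) / rh T (H l) * (conj (cexp ((th : ℂ) * I)) * H 2).re / ‖H l‖ : ℝ) : ℂ) +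
        ((ep l * √(1 - (rh T (H 2) / rh T (H l) * (conj (cexp ((th : ℂ) * I)) * H 2).re /
          ‖H l‖) ^ 2) : ℝ) : ℂ) * I)

/-- the points -/
noncomputable def mG (T : ℝ) (H : Fin 3 → ℂ) (ep : Fin 3 → ℝ) (th : ℝ) (l : Fin 3) : ℂ :=
  (rh T (H l) : ℂ) * wG T H ep th l

/-- radial component of the difference -/
noncomputable def tG (T : ℝ) (H : Fin 3 → ℂ) (ep : Fin 3 → ℝ) (th : ℝ) (l : Fin 3) : ℝ :=
  (conj (wG T H ep th l) * H l).re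

/-- tangential component of the difference -/
noncomputable def nG (T : ℝ) (H : Fin 3 → ℂ) (ep : Fin 3 → ℝ) (th : ℝ) (l : Fin 3) : ℝ :=
  (conj (wG T H ep th l) * H l).im

/-- radial component of the tangent vector with form `B` -/
noncomputable def muG (T : ℝ) (H : Fin 3 → ℂ) (ep : Fin 3 → ℝ) (th : ℝ) (B : ℝ × ℝ × ℝ)
    (l : Fin 3) : ℝ :=
  -((Helper68_F5.bf B (mG T H ep th l) (mG T H ep th l) + Helper68_F5.bf B (H l) (H l) / 4) /
    (2 * rh T (H l)))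

/-- the common value `G` of the tangent vector with form `B` and tangential component `y` at the
index `2` -/
noncomputable def GG (T : ℝ) (H : Fin 3 → ℂ) (ep : Fin 3 → ℝ) (th : ℝ) (B : ℝ × ℝ × ℝ)
    (y : ℝ) : ℝ :=
  muG T H ep th B 2 * tG T H ep th 2 + y * nG T H ep th 2 + Helper68_F5.bf B (mG T H ep th 2) (H 2)

/-- tangential component of the tangent vector with form `B` -/
noncomputable def yG (T : ℝ) (H : Fin 3 → ℂ) (ep : Fin 3 → ℝ) (th : ℝ) (B : ℝ × ℝ × ℝ) (y : ℝ)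
    (l : Fin 3) : ℝ :=
  if l = 2 then y else
    (GG T H ep th B y - Helper68_F5.bf B (mG T H ep th l) (H l) -
      muG T H ep th B l * tG T H ep th l) / nG T H ep th l

/-- the tangent vector with form `B` and tangential component `y` at the index `2` -/
noncomputable def tv (T : ℝ) (H : Fin 3 → ℂ) (ep : Fin 3 → ℝ) (th : ℝ) (B : ℝ × ℝ × ℝ) (y : ℝ)
    (l : Fin 3) : ℂ :=
  ((muG T H ep th B l : ℂ) + (yG T H ep th B y l : ℂ) * I) * wG T H ep th l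

/-- the body of dual vectors `K` (in the frame): windows `c₁` for the tangent vectors, `c₂` for the
radial tangent vector, `b l` for the tangential unit vectors -/
def BD (T c₁ c₂ : ℝ) (b : Fin 3 → ℝ) (H : Fin 3 → ℂ) (ep : Fin 3 → ℝ) (th : ℝ)
    (K : Fin 3 → ℂ) : Prop :=
  |F5.H58.sp K (tv T H ep th (1, 0, 0) 0)| ≤ c₁ * T ∧
  |F5.H58.sp K (tv T H ep th (0, 1, 0) 0)| ≤ c₁ * T ∧
  |F5.H58.sp K (tv T H ep th (0, 0, 1) 0)| ≤ c₁ * T ∧
  |F5.H58.sp K (tv T H ep th 0 1)| ≤ c₁ ∧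
  |F5.H58.sp K (tv T H ep th (1, 0, 1) 0)| ≤ c₂ * T ∧
  ∀ l, |(conj (K l) * (I * wG T H ep th l)).re| ≤ b l

/-- sizes, slab, and separation of the directions -/
def Gd (Q T : ℝ) (H : Fin 3 → ℂ) (ep : Fin 3 → ℝ) (th : ℝ) : Prop :=
  (∀ l, 1 ≤ Q * ‖H l‖ ∧ ‖H l‖ ≤ Q * Lx T) ∧
  (∀ l : Fin 3, l ≠ 2 → T ^ (677 / 2000 : ℝ) ≤ Q * ‖H l‖) ∧
  T * |(conj (cexp ((th : ℂ) * I)) * H 2).re| ≤ Q * Rx T ∧
  (∀ l m, l ≠ m → 1 ≤ Q * |(conj (wG T H ep th l) * wG T H ep th m).im|)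

/-- the radial second derivative `kappa` of `K` (exact formula, linear in `K`) -/
noncomputable def kph (T : ℝ) (H : Fin 3 → ℂ) (ep : Fin 3 → ℝ) (th : ℝ) (K : Fin 3 → ℂ) : ℝ :=
  ∑ l, ((conj (K l) * wG T H ep th l).re * ‖H l‖ ^ 2 -
    (conj (K l) * (I * wG T H ep th l)).re * (tG T H ep th 2 / nG T H ep th l) *
      (‖H l‖ ^ 2 - ‖H 2‖ ^ 2))

/-- the two signs -/
def sg (s : Bool × Bool) : Fin 3 → ℝ := ![if s.1 then 1 else -1, if s.2 then 1 else -1, 1]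

/-- sorted -/
def Srt (H : Fin 3 → ℂ) : Prop := ‖H 2‖ ≤ ‖H 1‖ ∧ ‖H 1‖ ≤ ‖H 0‖

/-- middle value of the three sup norms, for a real triple -/
noncomputable def V2r (h : R6) : ℝ :=
  max (min ‖h.1‖ ‖h.2.1‖) (max (min ‖h.1‖ ‖h.2.2‖) (min ‖h.2.1‖ ‖h.2.2‖))

/-- F2 (push-forward), for one `h` and one `k`.

PROOF.  (a) Let `m` be in the set on the left, `Z` its form.  The forms `A = Z + E` with
`|E| ≤ c / (Q T²)` are in `KM (2 Q)`, satisfy `|A(m_l) + A(h_l)/4 - T²| ≤ 1` and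
`|A(m_i, h_i) - A(m_j, h_j)| ≤ 2 Q`, and form a set of volume `≥ (c / (Q T²))³`.  For such `(A, m)` put
`th = arg (gA A m_3)` (index `2`, after the permutation which sorts `|gA A h_l|`), `ep_l` = minus the
sign of `im (conj (gA A m_l) * gA A h_l)`, and let `m'` be the exact point `mG` with this `A`, `th`,
`ep`: `|m - m'| ≤ Q^C / V_2` (same direction and `ρ` up to `O(1/T)` at the index `2`; for the other
two indices `A(m_l) `, `A(m_l,h_l)` differ by `O(Q)` and `|n_l| ≥ |H_l| / 2` because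
`|t_l| ≤ 2 Q r ≤ |H_l| / 4`).
(b) `NB Q T h m k` implies `BD T (Q^c kap) (Q^c kpr) (Q^c |H_l|)` at `m'` with `K = kG A k`: the
tangent vector `v = tv ..` at `m'` (form `B`, equal `G'`) has at `m` a form `B'` with
`|B' - B| ≤ Q^C |B + ..| |m - m'| / T` (Cramer / interpolation on three separated directions, also
`A` against `Z`), and `|G_i[v] - G_j[v]| ≤ Q^C V_1 |m - m'| |v| / T ≤ Q^C (V_1 / V_2) |v| / T ≤
kap Q^C |v|`; for the radial vector `|v| ≤ Q^C T`, `w` is `O(V² / T)` and the same bound is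
`≤ Q^C (V_1 / V_2) ≤ kap_r T Q^C` since `V_2 ≥ (T / V_1)^(1/2)`.  The tangential unit vector at
`l` has `B' = O(|m-m'| / T ..)` and `G_l - G_j = n_l + ..`.
(c) Let `S` be the set of the pairs `(A, m)` with `A ∈ KM (2 Q)`, `|A(m_l) + A(h_l)/4 - T²| ≤ 1`,
`|A(m_i,h_i) - A(m_j,h_j)| ≤ 2 Q`, and `(A, th(A, m))` in the set on the right for
`ep = ep(A, m)`: it is measurable, every `m` of the left hand side has a section of volume
`≥ (c/(Q T²))³`, so `vol(left) ≤ C Q³ T⁶ vol S` (Markov + Tonelli).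
(d) For fixed `A` and the sorting permutation: given `m_3` the sets of `m_1`, `m_2` have area
`≤ C Q² / (T |H_l|)` (the strip `|A(m_l, h_l) - t| ≤ 2 Q` and the annulus `|A(m_l) - s| ≤ 1` meet in
two pieces, `|n_l| ≥ |H_l|/2`), and `m_3` in polar coordinates of the frame gives
`C Q ∫ dth` (the annulus has `∫ ρ dρ ≤ 2`, the determinant of the frame is `≥ 1/Q²`).
Total `Q^c T⁶ / (T² V_1 V_2) = Q^c T⁴ / (V_1 V_2)`. -/
def F2Stmt : Prop := ∃ c : ℕ, c ≤ 10 ^ 4 ∧ ∃ Q0 : ℝ, 2 ≤ Q0 ∧ ∀ T Q : ℝ, Q0 ≤ Q →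
  Real.log T ≤ Q → Q ^ c ≤ T ^ (1 / 100000 : ℝ) → ∀ h k : R6,
  (∀ l, 1 ≤ ‖cp h l‖) → ‖h‖ ≤ Q * Lx T → T ^ (677 / 2000 : ℝ) < V2r h →
    volume {m : R6 | Reg Q T h m ∧ NB Q T h m k} ≤
      ENNReal.ofReal (Q ^ c * T ^ 4 / (‖h‖ * V2r h)) *
      ∑ p : Equiv.Perm (Fin 3), ∑ s : Bool × Bool,
        volume {a : (ℝ × ℝ × ℝ) × ℝ | a.1 ∈ KM (2 * Q) ∧ a.2 ∈ Set.Ioc (-Real.pi) Real.pi ∧
          Srt (hG a.1 (pm p h)) ∧ Gd (Q ^ c) T (hG a.1 (pm p h)) (sg s) a.2 ∧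
          BD T (Q ^ c * kap T ‖h‖) (Q ^ c * kpr T ‖h‖) (fun l => Q ^ c * ‖hG a.1 (pm p h) l‖)
            (hG a.1 (pm p h)) (sg s) a.2 (kG a.1 (pm p k))}

/-- the K-count for one form and one dyadic family; `W` is the bound.  The two statements below are
for helper68 and helper48. -/
def KCAt (T Q : ℝ) (A : ℝ × ℝ × ℝ) (V : Fin 3 → ℝ) (k0 del : ℝ) (s : Bool × Bool) (W : ℝ) : Prop :=
  ∑' h : Z6, ∑' k : Z6, (if k = 0 then 0 else
    volume {th : ℝ | th ∈ Set.Ioc (-Real.pi) Real.pi ∧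
      (∀ l, V l ≤ Q * ‖hG A (r3 h) l‖ ∧ ‖hG A (r3 h) l‖ ≤ Q * V l) ∧
      Gd Q T (hG A (r3 h)) (sg s) th ∧ ‖r3 k‖ ≤ Q * k0 ∧
      BD T Q (Q / k0) (fun l => Q * V l) (hG A (r3 h)) (sg s) th (kG A (r3 k)) ∧
      |kph T (hG A (r3 h)) (sg s) th (kG A (r3 k))| ≤ Q * (del * k0 * V 0 ^ 2)}) ≤
  ENNReal.ofReal W

/-- K-COUNT, first form (no use of `kappa`): Theorem D of note 2492 and 2493 (9).  Here
`r = T ^ (.338 + 2 rho0)`. -/
def KC1Stmt : Prop := ∃ c : ℕ, c ≤ 10 ^ 4 ∧ ∃ Q0 : ℝ, 2 ≤ Q0 ∧ ∀ T Q : ℝ, Q0 ≤ Q →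
  Real.log T ≤ Q → Q ^ c ≤ T ^ (1 / 100000 : ℝ) →
  ∀ (A : ℝ × ℝ × ℝ) (V : Fin 3 → ℝ) (k0 del : ℝ) (s : Bool × Bool), A ∈ KM Q →
    1 ≤ V 2 → V 2 ≤ V 1 → V 1 ≤ V 0 → V 0 ≤ Q * Lx T → T ^ (677 / 2000 : ℝ) ≤ Q * V 1 →
    1 ≤ k0 → k0 ≤ V 0 →
    KCAt T Q A V k0 del s (Q ^ c * (V 0 ^ 2 * V 1 ^ 2 * (V 2 * min (V 2) (Rx T / T)) *
      (min k0 (V 1) * max 1 (k0 / √(V 0 * V 1)))))

end Pool.Agent.F5H.BC
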