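import Pool.Agent.F5H.StmtsC

/-!
MP_f5cbfa_nt, squad F5H, block C, second part: `MATStmt` (gain of the averaging), the bound of `k`,
the second K-count, the numerical inequality, and the assembly of `CNTStmt`.
Conventions of `StmtsC`.
-/

set_option autoImplicit false

open MeasureTheory Complex ComplexConjugate

namespace Pool.Agent.F5H.BC

open Pool.Agent.BTL Pool.Agent.F5S Pool.Agent.F5H

/-- `V l` are the sizes of the components of `h`, up to `Q` -/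
def Sz (Q : ℝ) (V : Fin 3 → ℝ) (h : R6) : Prop :=
  ∀ l, V l ≤ Q * ‖cp h l‖ ∧ ‖cp h l‖ ≤ Q * V l

/-- the order and the range of the sizes -/
def Rg (T Q : ℝ) (V : Fin 3 → ℝ) : Prop :=
  1 ≤ V 2 ∧ V 2 ≤ V 1 ∧ V 1 ≤ V 0 ∧ V 0 ≤ Q * Lx T ∧ T ^ (677 / 2000 : ℝ) ≤ Q * V 1

/-- the source of the averaging: the set on the right of `F2Stmt` -/
def Src (T Q : ℝ) (V : Fin 3 → ℝ) (s : Bool × Bool) (h k : R6) : Set ((ℝ × ℝ × ℝ) × ℝ) :=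
  {a | a.1 ∈ KM Q ∧ a.2 ∈ Set.Ioc (-Real.pi) Real.pi ∧ Srt (hG a.1 h) ∧
    Gd Q T (hG a.1 h) (sg s) a.2 ∧
    BD T (Q * kap T (V 0)) (Q * kpr T (V 0)) (fun l => Q * V l) (hG a.1 h) (sg s) a.2 (kG a.1 k)}

/-- the target of the averaging: the set of `KCAt`, in the variables `(A, th)` -/
def Tgt (T Q : ℝ) (V : Fin 3 → ℝ) (k0 del : ℝ) (s : Bool × Bool) (h k : R6) :
    Set ((ℝ × ℝ × ℝ) × ℝ) :=
  {a | a.1 ∈ KM Q ∧ a.2 ∈ Set.Ioc (-Real.pi) Real.pi ∧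
    (∀ l, V l ≤ Q * ‖hG a.1 h l‖ ∧ ‖hG a.1 h l‖ ≤ Q * V l) ∧
    Gd Q T (hG a.1 h) (sg s) a.2 ∧ ‖k‖ ≤ Q * k0 ∧
    BD T Q (Q / k0) (fun l => Q * V l) (hG a.1 h) (sg s) a.2 (kG a.1 k) ∧
    |kph T (hG a.1 h) (sg s) a.2 (kG a.1 k)| ≤ Q * (del * k0 * V 0 ^ 2)}

/-- the gain of the averaging (`Rx T / T = r`) -/
noncomputable def gain (T : ℝ) (V : Fin 3 → ℝ) (k0 del : ℝ) : ℝ :=
  max (kap T (V 0) ^ 2) (max (kap T (V 0) / k0) ((kap T (V 0) * V 2 / (k0 * (Rx T / T))) ^ 2)) *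
    min 1 (kpr T (V 0) * max k0 (T ^ 2 / (del * k0 * V 0 ^ 2)))

/-- the dyadic values of `del` -/
noncomputable def dl (k0 : ℝ) (j : ℕ) : ℝ := max ((1 / 2) ^ j) k0⁻¹

/-- MAT (helper58): the averaging over forms and directions.  `⌈3 Q⌉₊` terms suffice because
`k0 ≤ Q ^ c * V 0 ≤ T` and `log T ≤ Q`. -/
def MATStmt : Prop := ∃ c : ℕ, c ≤ 10 ^ 4 ∧ ∃ Q0 : ℝ, 2 ≤ Q0 ∧ ∀ T Q : ℝ, Q0 ≤ Q →
  Real.log T ≤ Q → Q ^ c ≤ T ^ (1 / 100000 : ℝ) →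
  ∀ (V : Fin 3 → ℝ) (s : Bool × Bool) (h k : R6) (k0 : ℝ), Rg T Q V → Sz Q V h →
    1 ≤ k0 → k0 ≤ ‖k‖ → ‖k‖ ≤ 2 * k0 →
    volume (Src T Q V s h k) ≤ ENNReal.ofReal (Q ^ c) *
      ∑ j ∈ Finset.range ⌈3 * Q⌉₊, ENNReal.ofReal (gain T V k0 (dl k0 j)) *
        volume (Tgt T (Q ^ c) V k0 (dl k0 j) s h k)

/-- KV: a dual vector in the body is bounded by `Q ^ c V 0` (the case `c₁ = c₂ = Q`, larger than all
windows that occur).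

PROOF.  `H = hG A h`, `K = kG A k`, `w_l = wG .. l` (unit vectors: `norm_wG` below is part of the
row: `|rh_2 / rh_l * re (conj w_2 * H_2) / |H_l|| ≤ 1` for `l ≠ 2` because `|re (conj w_2 * H_2)| ≤
Q r` and `|H_l| ≥ T ^ .3385 / Q`, `r ≤ T ^ .3381`), `a_l = re (conj (K l) * w_l)`,
`b_l = re (conj (K l) * (I * w_l))`; `|b_l| ≤ Q V_l ≤ Q V_0` is the last window of `BD`.
`sp K (tv B 0) = ∑ (a_l μ_l(B) + b_l y_l(B))`, `μ_l = muG`, `y_l = yG`.  Sizes for `|B| ≤ 1`: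
`T / 2 ≤ rh_l ≤ T`, `|mG| ≤ T`, `|H_l| ≤ Q² T ^ .554`, so `μ_l(B) = - rh_l B(w_l,w_l) / 2 + O(|H_l|² / T)`;
`|n_l| ≥ |H_l| / 2` for `l ≠ 2` (`n_l² = |H_l|² - t_l²`, `|t_l| ≤ 2 Q r ≤ |H_l| / 4`), `GG(B, 0) =
O(T |H_2|)`, hence `|y_l(B)| ≤ C T (|H_2| + |H_l|) / |H_l| ≤ C Q^c T`.  The three windows on
`tv (E_j) 0` give for every `B` with `|B| ≤ 1`: `|∑ a_l μ_l(B)| ≤ 3 Q T + C Q^c V_0 T`.  Take for `B` the
interpolation form with `B(w_l, w_l) = 1` for `l = j` and `0` for the other two (`Helper68_F5.itp`;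
`|B| ≤ C Q^2` by the separation in `Gd`): `|a_j| T / 4 ≤ Q^c V_0 T + Q^c max |a| |V_0|² / T`, and the last
term is absorbed for the largest `|a_j|`.  Finally `‖k‖ ≤ Q^c max |K l|` (dual frame of `A ∈ KM Q`). -/
def KVStmt : Prop := ∃ c : ℕ, c ≤ 10 ^ 4 ∧ ∃ Q0 : ℝ, 2 ≤ Q0 ∧ ∀ T Q : ℝ, Q0 ≤ Q →
  Real.log T ≤ Q → Q ^ c ≤ T ^ (1 / 100000 : ℝ) →
  ∀ (A : ℝ × ℝ × ℝ) (V : Fin 3 → ℝ) (s : Bool × Bool) (th : ℝ) (h k : R6), A ∈ KM Q → Rg T Q V →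
    Sz Q V h → Gd Q T (hG A h) (sg s) th →
    BD T Q Q (fun l => Q * V l) (hG A h) (sg s) th (kG A k) → ‖k‖ ≤ Q ^ c * V 0

/-- K-COUNT, second form (with `kappa`; note 2500).  Needed only near the top. -/
def KC2Stmt : Prop := ∃ c : ℕ, c ≤ 10 ^ 4 ∧ ∃ Q0 : ℝ, 2 ≤ Q0 ∧ ∀ T Q : ℝ, Q0 ≤ Q →
  Real.log T ≤ Q → Q ^ c ≤ T ^ (1 / 100000 : ℝ) →
  ∀ (A : ℝ × ℝ × ℝ) (V : Fin 3 → ℝ) (k0 del : ℝ) (s : Bool × Bool), A ∈ KM Q →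
    1 ≤ V 2 → V 2 ≤ V 1 → V 1 ≤ V 0 → V 0 ≤ Q * Lx T →
    T ^ (53 / 100 : ℝ) ≤ V 0 → T ^ (1 / 2 : ℝ) ≤ V 1 → T ^ (11 / 25 : ℝ) ≤ V 2 →
    T ^ (11 / 25 : ℝ) ≤ k0 → k0 ≤ V 0 → k0⁻¹ ≤ del → del ≤ 1 →
    KCAt T Q A V k0 del s (Q ^ c * (V 0 ^ 2 * V 1 ^ 2 * (V 2 * (Rx T / T)) *
      (min k0 (V 1) * max 1 (k0 / √(V 0 * V 1))) *
      ((del ^ (2 / 5 : ℝ) + k0 ^ (-(1 / 5) : ℝ)) * (V 0 / V 1) ^ (5 / 2 : ℝ))))

/-- the factor of `KC2Stmt` -/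
noncomputable def F2c (V : Fin 3 → ℝ) (k0 del : ℝ) : ℝ :=
  (del ^ (2 / 5 : ℝ) + k0 ^ (-(1 / 5) : ℝ)) * (V 0 / V 1) ^ (5 / 2 : ℝ)

/-- NUM: the numerical inequality (real exponents, a linear program: with `V l = T ^ v_l`,
`k0 = T ^ k`, `del = T ^ d` every term is a maximum of finitely many monomials; the maximum is
1.9935 in the first part and 1.9977 in the second). -/
def NUMStmt : Prop := ∀ (T : ℝ) (V : Fin 3 → ℝ) (k0 del : ℝ), 1 < T → 1 ≤ V 2 → V 2 ≤ V 1 →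
  V 1 ≤ V 0 → V 0 ≤ T ^ (277 / 500 + 1 / 10000 : ℝ) → T ^ (677 / 2000 - 1 / 10000 : ℝ) ≤ V 1 →
  1 ≤ k0 → k0 ≤ V 0 → k0⁻¹ ≤ del → del ≤ 1 →
  (¬ (T ^ (53 / 100 : ℝ) ≤ V 0 ∧ T ^ (1 / 2 : ℝ) ≤ V 1 ∧ T ^ (11 / 25 : ℝ) ≤ V 2 ∧
      T ^ (11 / 25 : ℝ) ≤ k0) →
    V 0 * V 1 * (V 2 * min (V 2) (Rx T / T)) * gain T V k0 del *
      (min k0 (V 1) * max 1 (k0 / √(V 0 * V 1))) ≤ 4 * T ^ (399 / 200 : ℝ)) ∧
  (T ^ (53 / 100 : ℝ) ≤ V 0 ∧ T ^ (1 / 2 : ℝ) ≤ V 1 ∧ T ^ (11 / 25 : ℝ) ≤ V 2 ∧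
      T ^ (11 / 25 : ℝ) ≤ k0 →
    V 0 * V 1 * (V 2 * (Rx T / T)) * gain T V k0 del *
      (min k0 (V 1) * max 1 (k0 / √(V 0 * V 1))) * min 1 (F2c V k0 del) ≤ 4 * T ^ (999 / 500 : ℝ))

/-- MEA: the target is measurable (`KM Q` is closed; all functions of `(A, th)` are measurable:
square roots, quotients, `cexp`). -/
def MEAStmt : Prop := ∀ (T Q : ℝ) (V : Fin 3 → ℝ) (k0 del : ℝ) (s : Bool × Bool) (h k : R6),
  MeasurableSet (Tgt T Q V k0 del s h k)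

/-- INT: one dyadic family.  PROOF.  `volume (Tgt ..) = ∫ over A of volume (section)` (`MEAStmt`,
`Measure.prod_apply`), the section is empty for `A ∉ KM Q` and is the set of `KCAt`; sum over `h ∈ H`
of a function of `pm p h` is at most the sum over all `h : Z6` (`pm p` is injective and commutes
with `r3`); `volume (KM Q) ≤ (2 Q) ^ 3`. -/
def INTStmt : Prop := ∀ (T Q : ℝ) (V : Fin 3 → ℝ) (k0 del W : ℝ) (s : Bool × Bool)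
  (p : Equiv.Perm (Fin 3)), 1 ≤ Q → (∀ A ∈ KM Q, KCAt T Q A V k0 del s W) →
  ∀ H : Finset Z6, ∑ h ∈ H, ∑' k : Z6, (if k = 0 then 0 else
    volume (Tgt T Q V k0 del s (pm p (r3 h)) (pm p (r3 k)))) ≤
  ENNReal.ofReal ((2 * Q) ^ 3 * W)

/-- ASM: the assembly.  PROOF.  `ep = 10^-20`, `Q = T ^ ep` (then `log T ≤ Q` and all powers `Q ^ c`
with `c ≤ 10 ^ 13` are `≤ T ^ (1/10^5)`, `T ≥ T0`).  For each `h ∈ H` and `k ≠ 0` apply `F2Stmt`, for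
each `(p, s)` the set on the right is contained in `Src T Q₁ V s (pm p h) (pm p k)`, `Q₁ = Q ^ c`, for
suitable dyadic `V l = 2 ^ a_l` (`a_l ≤ 2 log T`) with `Rg T Q₁ V`, `Sz Q₁ V (pm p h)` (if it is not
empty, then `Srt` and `A ∈ KM (2 Q)` show that the sizes of the components of `pm p h` are
decreasing up to `8 Q²`; take `V 2 = ` size of the last one, `V 1`, `V 0` = maxima).  `k0 = 2 ^ b`
with `k0 ≤ ‖k‖ ≤ 2 k0`; `KVStmt`: `k0 ≤ Q₂ V 0` if the set is not empty.  `MATStmt`, then `INTStmt` for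
each `(V, k0, j)` with the bound `W` of `KC1Stmt` or `KC2Stmt` (for `k0 > V 0` or `k0 < 1` replace `k0` by
`k0 / Q₂`: the windows of `KCAt` only become larger; same for `V l` in the ranges; `KCAt` is
monotone in `Q`, in `del` and in `W`), `NUMStmt`, and the number of the
`(p, s, V, k0, j)` is `≤ Q ^ c`. -/
def ASMStmt : Prop := F2Stmt → KVStmt → MATStmt → KC1Stmt → KC2Stmt → NUMStmt → INTStmt → CNTStmt

/-! ### The charts of the space of forms (input of MAT) -/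

/-- the rotation between the frames -/
noncomputable def om (mu : ℂ) : ℂ := conj (1 + mu) / (‖1 + mu‖ : ℂ)

/-- the form `lam * |z + mu z̄|²`, `z` the frame coordinate of `A` -/
noncomputable def Ach (A : ℝ × ℝ × ℝ) (lam : ℝ) (mu : ℂ) : ℝ × ℝ × ℝ :=
  (lam * normSq (gA A (1, 0) + mu * conj (gA A (1, 0))),
    lam * (conj (gA A (1, 0) + mu * conj (gA A (1, 0))) *
      (gA A (0, 1) + mu * conj (gA A (0, 1)))).re,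
    lam * normSq (gA A (0, 1) + mu * conj (gA A (0, 1))))

/-- CHA: algebra of the frames.
(1) `gA A` is linear and `|gA A x|² = qf A x`, `re (conj (gA A x) * gA A y) = bl A x y`;
(2) duality; (3) the form of the chart; (4) its frame (both sides are linear in `x`; at `(1, 0)` both
are positive real, at `(0, 1)` compare the real products with `gA (1, 0)` and the positive
imaginary parts, the determinant of `z ↦ z + mu z̄` is `1 - |mu|² > 0`); (5) sizes;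
(6) `‖kA A k‖` and `‖k‖`. -/
def CHAStmt : Prop :=
  (∀ (A : ℝ × ℝ × ℝ) (M : ℝ), 1 ≤ M → A ∈ KM M → 0 < A.1 ∧ 0 < disc A ∧
    (∀ x : ℝ × ℝ, ‖gA A x‖ ^ 2 = qf A x) ∧
    (∀ x y : ℝ × ℝ, (conj (gA A x) * gA A y).re = bl A x y) ∧
    (∀ k x : ℝ × ℝ, k.1 * x.1 + k.2 * x.2 = (conj (kA A k) * gA A x).re) ∧
    (∀ x : ℝ × ℝ, ‖x‖ ≤ M * ‖gA A x‖ ∧ ‖gA A x‖ ≤ 2 * M * ‖x‖) ∧
    (∀ k : ℝ × ℝ, ‖k‖ ≤ 4 * M * ‖kA A k‖ ∧ ‖kA A k‖ ≤ 4 * M * ‖k‖)) ∧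
  (∀ (A : ℝ × ℝ × ℝ) (M lam : ℝ) (mu : ℂ), 1 ≤ M → A ∈ KM M → 0 < lam → ‖mu‖ < 1 →
    (∀ x : ℝ × ℝ, qf (Ach A lam mu) x = lam * normSq (gA A x + mu * conj (gA A x))) ∧
    (∀ x : ℝ × ℝ, gA (Ach A lam mu) x = om mu * (√lam : ℂ) * (gA A x + mu * conj (gA A x))) ∧
    (1 / 2 ≤ lam → lam ≤ 2 → ‖mu‖ ≤ 1 / 8 → Ach A lam mu ∈ KM (4 * M)))

/-- CHE: the forms near `A` are in the chart.  PROOF.  `A'` in the frame coordinate of `A` is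
`a |z|² + re (conj b * z²)` with `|a - 1|, |b| ≤ C M² ‖A' - A‖` (`a = ..`, `b = ..` linear in `A'`, equal
to `1`, `0` for `A' = A`); `lam = (a + √(a² - |b|²)) / 2`, `mu = b / (2 lam)` (then
`lam (1 + |mu|²) = a`, `2 lam mu = b`). -/
def CHEStmt : Prop := ∃ C : ℝ, 1 ≤ C ∧ ∀ (A A' : ℝ × ℝ × ℝ) (M d : ℝ), 1 ≤ M → A ∈ KM M →
  0 < d → d ≤ 1 / 8 → C * M ^ 4 * ‖A' - A‖ ≤ d →
  ∃ (lam : ℝ) (mu : ℂ), A' = Ach A lam mu ∧ |lam - 1| ≤ d ∧ ‖mu‖ ≤ d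

/-- the chart of the pairs `(A, th)` -/
noncomputable def Psi (A : ℝ × ℝ × ℝ) (w : ℝ × (Fin 3 → ℝ)) : (ℝ × ℝ × ℝ) × ℝ :=
  (Ach A w.1 ((w.2 0 : ℂ) + (w.2 1 : ℂ) * I),
    F5.H58.ph3 ((w.2 0 : ℂ) + (w.2 1 : ℂ) * I) (w.2 2) -
      arg (1 + ((w.2 0 : ℂ) + (w.2 1 : ℂ) * I)))

/-- the domain of the chart -/
def PsR : Set (ℝ × (Fin 3 → ℝ)) :=
  {w | 1 / 2 ≤ w.1 ∧ w.1 ≤ 2 ∧ |w.2 0| ≤ 1 / 16 ∧ |w.2 1| ≤ 1 / 16 ∧ |w.2 2| ≤ 5}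

/-- COV: volumes in the chart.  PROOF.  (i) `Psi A` is Lipschitz on `PsR` with constant `C M`, and
`‖w - w'‖ ≤ C M^2 ‖Psi A w - Psi A w'‖` there: `Ach A lam mu` is the image of `(a, b) = (lam (1 + |mu|²),
2 lam mu)` under a linear map (the forms `a |z|² + re (conj b z²)`) which is bounded with bounded
inverse; `|lam - lam'| ≤ |a - a'| + |mu - mu'| / 2`, `|mu - mu'| ≤ |b - b'| + |lam - lam'| / 2` on `PsR`;
`ph3 mu th - th = - im (mu exp (-2 i th))` and `arg (1 + mu) = im log (1 + mu)`, so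
`|th - th'| ≤ 2 |dPsi.2| + C |mu - mu'|`.  (ii) GENERAL LEMMA: `E`, `F` normed spaces of the same finite
dimension `n`, with Haar measures: there is a constant `C < ∞` with `vol (f '' S) ≤ C K^n vol S` for
`f` `K`-Lipschitz on `S`: `isAddHaarMeasure_hausdorffMeasure` (`μH[n]` is a Haar measure on `E` and on
`F`), uniqueness of Haar measure, `LipschitzOnWith.hausdorffMeasure_image_le`; applied to `Psi A` on
`S` and to the inverse on the image.  No measurability needed. -/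
def COVStmt : Prop := ∃ c : ℕ, c ≤ 100 ∧ ∃ C : ℝ, 1 ≤ C ∧ ∀ (A : ℝ × ℝ × ℝ) (M : ℝ), 1 ≤ M →
  A ∈ KM M → ∀ S ⊆ PsR,
    volume (Psi A '' S) ≤ ENNReal.ofReal (C * M ^ c) * volume S ∧
    volume S ≤ ENNReal.ofReal (C * M ^ c) * volume (Psi A '' S)

/-- SCL: scaling of the first variable -/
def SCLStmt : Prop := ∀ (s : ℝ), 0 < s → ∀ B : Set (ℝ × (Fin 3 → ℝ)),
  volume B = ENNReal.ofReal s * volume {w : ℝ × (Fin 3 → ℝ) | (s * w.1, w.2) ∈ B}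

/-- PER: periodic sets (`[-6, 6]` is covered by three periods) -/
def PERStmt : Prop := ∀ U : Set ((ℝ × ℝ × ℝ) × ℝ),
  (∀ (A : ℝ × ℝ × ℝ) (th : ℝ), (A, th) ∈ U ↔ (A, th + 2 * Real.pi) ∈ U) →
    volume (U ∩ {a | |a.2| ≤ 6}) ≤ 3 * volume (U ∩ {a | a.2 ∈ Set.Ioc (-Real.pi) Real.pi})

/-- CVR: covering by cells of side `r0` (for every cell which meets `U` choose a point of `U` in it) -/
def CVRStmt : Prop := ∀ (M r0 : ℝ) (U : Set ((ℝ × ℝ × ℝ) × ℝ)) (B : ENNReal), 1 ≤ M → 0 < r0 →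
  r0 ≤ 1 → (∀ a ∈ U, a.1 ∈ KM M) →
  (∀ a ∈ U, volume (U ∩ {a' | ‖a'.1 - a.1‖ ≤ r0}) ≤ B) →
    volume U ≤ ENNReal.ofReal ((4 * M / r0) ^ 3) * B

end Pool.Agent.F5H.BC
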