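import Pool.Agent.F5H.StmtsD
import Pool.Agent.Helper58_F5.LinkD
import Pool.Agent.Helper58_F5.MatB

/-!
MP_f5cbfa_nt, squad F5H, block C, third part: inputs of `MATStmt` inside the chart.
-/

set_option autoImplicit false

open MeasureTheory Complex ComplexConjugate

namespace Pool.Agent.F5H.BC

open Pool.Agent.BTL Pool.Agent.F5S Pool.Agent.F5H Pool.Agent.F5.H58

/-- LPX: uniform Lipschitz bounds near the compact set.

PROOF.  Files of helper58: `UX` is open (`isOpen_UX`), `KX` compact (`isCompact_KX`), `KX ⊆ UX`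
(`KX_sub`), and `taylor_compact` gives for every `f : XX → E` with `ContDiffOn ℝ 2 f UX` constants
`C, r` with `q + u ∈ UX`, `‖fderiv ℝ f (q + u)‖ ≤ C`, `‖f (q + u) - f q‖ ≤ C ‖u‖` for `q ∈ KX`, `‖u‖ ≤ r` (see
`taylor_GM`, `ext_bounds` in Ext.lean, ExtC.lean for the pattern).  Apply it to
`f = fun q => (fun l => wp q l)`, `TA`, `KQ`, `NM`: smoothness of `wp` is `(cd_ww n hq.2 l).comp q (cd_Ps n hq.1)`,
`TA`, `NM` (`cd_NM`), `bw` (`cd_bz` without the factor `z`), `gq q l` for `l ≠ 2`: quotient of smooth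
functions, the denominator is not zero by `im_ne (x := Ps q)`.  `dN q u ζ = fderiv ℝ NM q (dr' u ζ)`,
`‖dr' (Pi.single j 1) 0‖ ≤ 1` (`norm_ins_single`); near `KX` one has `normSq (mu q.1) < 1`
(restrict `r`: `‖mu x‖ ≤ 1 / 8` on `KK`, the first component of `(x, z, β)` is `x` itself).  For the
last statement use the mean value theorem on the segment from `(x, z, β)` to `(x + ins u, z', β)`
(`shift_mv` in ExtD.lean for the first part, then the second variable), all its points are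
`(x + s • ins u, 0, β) + (0, z_s, 0)` with `(x + s • ins u, 0, β) ∈ KX`. -/
def LPXStmt : Prop := ∃ C r : ℝ, 1 ≤ C ∧ 0 < r ∧ ∀ x ∈ KK, ∀ β : Fin 3 → ℝ, (∀ l, |β l| ≤ 1) →
  ∀ z : ℝ, 0 ≤ z → z ≤ r →
    (∀ j, ‖dN ((x, z, β) : XX) (Pi.single j 1) 0‖ ≤ C) ∧
    (∀ l, ‖wp ((x, z, β) : XX) l - wp ((x, 0, β) : XX) l‖ ≤ C * z) ∧
    ‖KQ ((x, z, β) : XX) - KQ ((x, 0, β) : XX)‖ ≤ C * z ∧
    ∀ (u : Fin 3 → ℝ) (ρ z' : ℝ), (∀ i, |u i| ≤ ρ) → 0 ≤ z' → z' ≤ r →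
      (∀ s ∈ Set.Icc (0 : ℝ) 1, x + s • ins u ∈ KK) →
      ∀ l, ‖TA ((x + ins u, z', β) : XX) l - TA ((x, z, β) : XX) l‖ ≤ C * (ρ + |z' - z|)

/-- parameters of the chart at the form `A` -/
noncomputable def Pc (A : ℝ × ℝ × ℝ) (s : Bool × Bool) (h : R6) : PP :=
  (fun l => hG A h l / (‖hG A h l‖ : ℂ), fun l => ‖hG A h 2‖ / ‖hG A h l‖, sg s)

/-- relative sizes -/
noncomputable def bc (A : ℝ × ℝ × ℝ) (h : R6) (l : Fin 3) : ℝ := ‖hG A h l‖ / ‖hG A h 0‖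

/-- scale of the radial variable -/
noncomputable def sF (T : ℝ) (A : ℝ × ℝ × ℝ) (h : R6) : ℝ := ‖hG A h 0‖ ^ 2 / (4 * T ^ 2)

/-- `mu` of a point of the chart -/
noncomputable def mw (w : ℝ × (Fin 3 → ℝ)) : ℂ := (w.2 0 : ℂ) + (w.2 1 : ℂ) * I

/-- the point of the extended chart -/
noncomputable def Qp (T : ℝ) (A : ℝ × ℝ × ℝ) (s : Bool × Bool) (h : R6) (w : ℝ × (Fin 3 → ℝ)) : XX :=
  qw (Pc A s h) (bc A h) (sF T A h * w.1, w.2)

/-- FRM: the dictionary.  PROOF.  `CHAStmt`: `gA (Ach A lam mu) x = om mu √lam (gA A x + mu conj (gA A x))`,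
`hG A h l = ‖hG A h l‖ e_l`; `exp (- i arg (1 + mu)) = om mu`; duality: for `X` choose `x_l` with
`gA A x_l = X_l` (`gA_surj` of helper3), both sides are `∑ k_l.x_l`. -/
def FRMStmt : Prop := CHAStmt → ∀ (T M : ℝ) (A : ℝ × ℝ × ℝ) (s : Bool × Bool) (h k : R6)
  (w : ℝ × (Fin 3 → ℝ)), 0 < T → 1 ≤ M → A ∈ KM M → (∀ l, hG A h l ≠ 0) → 0 < w.1 → ‖mw w‖ < 1 →
  Qp T A s h w ∈ UX →
    Fr T (hG (Ach A w.1 (mw w)) h) (sg s) (Psi A w).2 (Qp T A s h w) (om (mw w)) w.1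
      ‖hG A h 0‖ ∧
    Du (kG (Ach A w.1 (mw w)) k) (kG A k) (om (mw w)) w.1 (mw w)

end Pool.Agent.F5H.BC
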