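import Pool.Agent.F5H.StmtsE

/-!
MP_f5cbfa_nt, squad F5H, block C, fourth part: the numbers of `MATStmt`.
-/

set_option autoImplicit false

open MeasureTheory Complex ComplexConjugate

namespace Pool.Agent.F5H.BC

open Pool.Agent.BTL Pool.Agent.F5S Pool.Agent.F5H Pool.Agent.F5.H58

/-- `(V 0 / T) ^ 2` -/
noncomputable def ze (T : ℝ) (V : Fin 3 → ℝ) : ℝ := V 0 ^ 2 / T ^ 2

/-- side of the boxes in `(mu, theta)` -/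
noncomputable def rhA (T Q : ℝ) (V : Fin 3 → ℝ) (k0 : ℝ) : ℝ :=
  min k0⁻¹ (min (Rx T / T / V 2) (√(kap T (V 0) / k0))) / Q ^ 60

/-- side of the boxes in `z`, `S` is the scale `sF` -/
noncomputable def rhZ (T Q : ℝ) (V : Fin 3 → ℝ) (k0 del S : ℝ) : ℝ :=
  S * min 1 (del * k0 ^ 2 * ze T V)⁻¹ / Q ^ 60

/-- MN: numerical facts (`log T ≤ Q`, `Q ^ 2000 ≤ T ^ (1/10^5)`, so `T` is much larger than every power of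
`Q` that occurs; `kap = (V 0 / T) ^ (1/2) ≤ Q T ^ (-.223)`; `Rx T = T ^ (1.338 + 2 rho0)`, unfold `rho0`;
(3) is `V_0 ^ (5/2) ≤ T ^ (3/2) Q^-..`; (9): `k0 ≤ T`, `log_2 T ≤ 1.45 Q`). -/
def MNStmt : Prop := ∃ Q0 : ℝ, 2 ≤ Q0 ∧ ∀ (T Q : ℝ) (V : Fin 3 → ℝ) (k0 : ℝ), Q0 ≤ Q →
  Real.log T ≤ Q → Q ^ 2000 ≤ T ^ (1 / 100000 : ℝ) → Rg T Q V → 1 ≤ k0 → k0 ≤ Q ^ 35 * V 0 →
  1 < T ∧ 0 < kap T (V 0) ∧ Q ^ 100 * kap T (V 0) ≤ 1 ∧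
  0 < kpr T (V 0) ∧ kpr T (V 0) ≤ kap T (V 0) ∧
  Q ^ 100 * (k0 * ze T V) ≤ kap T (V 0) ∧
  Q ^ 100 * (k0 * ze T V) ≤ 1 ∧
  0 < Rx T / T ∧ Q ^ 100 * (Rx T / T) ≤ V 1 ∧
  1 ≤ kpr T (V 0) * (T ^ 2 / V 0 ^ 2) ∧
  Q ^ 100 ≤ T ∧
  (1 / 2 : ℝ) ^ (⌈3 * Q⌉₊ - 1) < k0⁻¹

/-- MG: the factor of the averaging is at most `Q ^ 400 gain`.  `nK` is the norm of the dual vector,
`S = sF`.  In (2) `gain` for `del = k0⁻¹` (no radial gain: use `1 ≤ kpr * (T² / V0²)`). -/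
def MGStmt : Prop := ∀ (T Q C : ℝ) (V : Fin 3 → ℝ) (k0 del nK S A₁ : ℝ), 4 ≤ Q → 1 ≤ C → C ≤ Q →
  1 < T → 1 ≤ V 2 → V 2 ≤ V 1 → V 1 ≤ V 0 → 1 ≤ k0 → k0⁻¹ ≤ del → del ≤ 1 → k0 ≤ Q ^ 2 * nK →
  0 < S → ze T V ≤ Q ^ 5 * S → 0 < Rx T / T → 1 ≤ kpr T (V 0) * (T ^ 2 / V 0 ^ 2) →
  (0 < A₁ → del * k0 ≤ Q ^ 3 * A₁ →
    C * ((Q ^ 4 * kap T (V 0)) ^ 2 *
      min (2 * rhZ T Q V k0 del S) (8 * (Q ^ 2 * kpr T (V 0)) / A₁)) /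
      ((1 / Q) ^ 20 * nK ^ 2 * rhA T Q V k0 ^ 2 * rhZ T Q V k0 del S) ≤
    Q ^ 400 * gain T V k0 del) ∧
  (C * ((Q ^ 4 * kap T (V 0)) ^ 2 * (2 * rhZ T Q V k0 k0⁻¹ S)) /
      ((1 / Q) ^ 20 * nK ^ 2 * rhA T Q V k0 ^ 2 * rhZ T Q V k0 k0⁻¹ S) ≤
    Q ^ 400 * gain T V k0 k0⁻¹)

end Pool.Agent.F5H.BC
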