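import Pool.Agent.Helper58_F5.MatD

/-!
MP_f5cbfa_nt, squad F5H, block C, fifth part: the pieces of `MATStmt`.  Everything about the centre
`A` is in the structure `Ctr` (MatD.lean), with many small lemmas `Ctr.xx` there (read them first).
-/

set_option autoImplicit false

open MeasureTheory Complex ComplexConjugate

namespace Pool.Agent.F5H.BC

open Pool.Agent.BTL Pool.Agent.F5S Pool.Agent.F5H Pool.Agent.F5.H58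

/-- `rho` -/
noncomputable def r1 (T Q : ℝ) (V : Fin 3 → ℝ) (k0 : ℝ) : ℝ := rhA T Q V k0

/-- `rho_z` -/
noncomputable def r2 (T Q : ℝ) (V : Fin 3 → ℝ) (k0 : ℝ) (h : R6) (A : ℝ × ℝ × ℝ) (j : ℕ) : ℝ :=
  rhZ T Q V k0 (dl k0 j) (sF T A h)

/-- the enlarged set in the chart (literally the right side of `matw`) -/
def Bj' (C T Q : ℝ) (V : Fin 3 → ℝ) (k0 : ℝ) (s : Bool × Bool) (h k : R6) (A : ℝ × ℝ × ℝ)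
    (j : ℕ) : Set (ℝ × (Fin 3 → ℝ)) :=
  Bc (Pc A s h) (bc A h) (kG A k) (1 / Q ^ 50 + 6 * r1 T Q V k0)
    (Q ^ 4 * (Rx T / T / V 2) + 6 * r1 T Q V k0) (1 / Q / 2)
    (sF T A h / 2 / 2) (2 * (2 * sF T A h)) (4 + r1 T Q V k0)
    (Q ^ 4 * kap T (V 0) + C * (‖kG A k‖ * r1 T Q V k0))
    (Q ^ 2 * kpr T (V 0) + C * (r1 T Q V k0 * (Q ^ 4 * kap T (V 0) + ‖kG A k‖ * r1 T Q V k0)) +
      C * (‖kG A k‖ * (2 * sF T A h) * r1 T Q V k0) +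
      C * ((A2j Q k0 j + ‖kG A k‖ * (2 * sF T A h)) * r2 T Q V k0 h A j))
    0 (A2j Q k0 j + C * (‖kG A k‖ * r1 T Q V k0))

/-- the enlarged windows -/
def Ew' (T Q : ℝ) (V : Fin 3 → ℝ) (s : Bool × Bool) (h k : R6) (A : ℝ × ℝ × ℝ) :
    Set (ℝ × (Fin 3 → ℝ)) :=
  {w | sF T A h / 2 ≤ w.1 ∧ w.1 ≤ 2 * sF T A h ∧ |w.2 0| ≤ 1 / 16 ∧ |w.2 1| ≤ 1 / 16 ∧
    |w.2 2| ≤ 5 ∧ ∀ l, |(conj (kG A k l) * TA (qw (Pc A s h) (bc A h) w) l).re| ≤ Q ^ 3 * V l}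

/-- the target without the restriction of the angle -/
def TgP (T Q : ℝ) (V : Fin 3 → ℝ) (k0 del : ℝ) (s : Bool × Bool) (h k : R6) :
    Set ((ℝ × ℝ × ℝ) × ℝ) :=
  {a | a.1 ∈ KM Q ∧
    (∀ l, V l ≤ Q * ‖hG a.1 h l‖ ∧ ‖hG a.1 h l‖ ≤ Q * V l) ∧
    Gd Q T (hG a.1 h) (sg s) a.2 ∧ ‖k‖ ≤ Q * k0 ∧
    BD T Q (Q / k0) (fun l => Q * V l) (hG a.1 h) (sg s) a.2 (kG a.1 k) ∧
    |kph T (hG a.1 h) (sg s) a.2 (kG a.1 k)| ≤ Q * (del * k0 * V 0 ^ 2)}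

/-- I1 (helper58): body to chart -/
def I1Stmt : Prop := CHAStmt → FRMStmt → ∀ (T Q : ℝ) (V : Fin 3 → ℝ) (k0 : ℝ) (s : Bool × Bool)
  (h k : R6) (A : ℝ × ℝ × ℝ), Ctr T Q V k0 s h k A → (1 / 2 : ℝ) ^ (⌈3 * Q⌉₊ - 1) < k0⁻¹ →
  ∀ w : ℝ × (Fin 3 → ℝ), |w.1 - 1| ≤ 1 / 8 → ‖mw w‖ ≤ 1 / Q ^ 50 → |w.2 2| ≤ 4 →
    Psi A w ∈ Src T Q V s h k →
    ∃ j ∈ Finset.range ⌈3 * Q⌉₊,
      (sF T A h * w.1, w.2) ∈ Bj T Q V k0 s h k A j ∩ Ew T Q V s h k A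

/-- I2: chart to target.  PROOF.  Let `v = (sF * w.1, w.2) ∈ Bj' ∩ Ew'`, `q = Qp T A s h w = qw P β v`.
`D0_KK` (d ≤ 1/64, L ≤ 5) gives `xw P v ∈ KK`, `X.ac` all bounds at `q` (`Q z ≤ 1`: `Ctr.zz`, as
`v.1 ≤ 2 sF`), in particular `q ∈ UX`; `FRMStmt` gives `F : Fr ..`, `D : Du ..` (`1/2 ≤ w.1 ≤ 2` from `Ew'`).
(a) `Ach ∈ KM (4 Q)` (`CHAStmt`); (b) sizes: `F.norm_H`, `7/8 ≤ ‖Eh‖ ≤ 9/8`, `X.sz1`, `X.sz2`; (c) `Gd`: the slab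
from `F.Y_eq` and `|Yf| ≤ Q^4 r/V_2 + 6 rho`, `rho ≤ r/V_2`; the separation:
`2 |im (conj a * b)| = ‖a² - b²‖` for unit `a, b`, `wG = om * wp` (`F.wG_eq`), `wp (x,0,β) l ^ 2 = Xq ..`
(`wp_zero`), distance `≤ Q z` to `wp (x,z,β)`; (d) `‖k‖ ≤ 4 Q ‖kG A k‖ ≤ ..` (`CHAStmt`); (e) `BD`: `F.chartB`
with `CN = Q`, `e = Q (‖K‖ z)`, `a = (bound of FF) + Q (‖K‖ z)`, `p` = bound of `phi`; numbers: `‖K‖ ≤ Q² k0`,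
`rho ≤ 1/k0`, `kap ≤ 1`, `kpr ≤ ?`: `p ≤ Q^c / k0` because `kpr ≤ kap^3 + T^(-.97)`.. see `p8` in the
hypotheses; `bz q 2 ≤ 1/4`; the windows: `F.tan_eq` and `Ew'`; (f) `kph`: `F.kph_eq`, `|sp KQ - kh| ≤ Q ‖K‖ z`,
`|kh| ≤ A2j + C ‖K‖ rho ≤ Q^5 k0 del` (`del ≥ 1/k0`); (g) `|Psi.2| ≤ 6`: `|ph3 - th| ≤ |mu| ≤ 1/8`,
`|arg (1 + mu)| ≤ π/2 .. ` (in fact `re (1 + mu) > 0` gives `|arg| ≤ π/2`, which is too much: use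
`|arg (1 + mu)| ≤ 2 |mu|`, or `abs_arg_lt..`; `5 + 1/8 + 1/2 ≤ 6`). -/
def I2Stmt : Prop := CHAStmt → FRMStmt → ∀ (C T Q : ℝ) (V : Fin 3 → ℝ) (k0 : ℝ)
  (s : Bool × Bool) (h k : R6) (A : ℝ × ℝ × ℝ) (j : ℕ), 1 ≤ C → C ≤ Q →
  Ctr T Q V k0 s h k A → Rg T Q V → kpr T (V 0) * k0 ≤ Q →
  ∀ w : ℝ × (Fin 3 → ℝ),
    (sF T A h * w.1, w.2) ∈ Bj' C T Q V k0 s h k A j ∩ Ew' T Q V s h k A →
    Psi A w ∈ TgP T (Q ^ 1000) V k0 (dl k0 j) s h k ∧ |(Psi A w).2| ≤ 6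

/-- I3: measurability and stability of the windows.  PROOF.  `TA (qw P β w) l` is continuous on the
closed set `D0 P (1/Q^50) (3/4 sF) (5/4 sF) 4` (points there are in `UX` by `D0_KK` and `X.ac`, `cd_TA`
of helper9 in Lpx.lean; see `isClosed_Bc` in MatA.lean).  For `w₀ ∈ Bj ∩ Ew`, `w ∈ bx r2 r1 w₀`:
`|w.1 - w₀.1| ≤ r2 ≤ sF / Q^60`, `|w.2 i - w₀.2 i| ≤ r1 ≤ Q^-60`; last clause of `X.ac` with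
`u = w.2 - w₀.2` (`KK_shift`, as in MatB.lean), `‖K‖ (r1 + r2) ≤ Q^2 k0 (1/(k0 Q^60) + sF/Q^60) ≤ 1/Q`
(`Ctr.kS1`). -/
def I3Stmt : Prop := ∀ (T Q : ℝ) (V : Fin 3 → ℝ) (k0 : ℝ) (s : Bool × Bool)
  (h k : R6) (A : ℝ × ℝ × ℝ) (j : ℕ), Ctr T Q V k0 s h k A →
  MeasurableSet (Ew T Q V s h k A) ∧
  ∀ w₀ ∈ Bj T Q V k0 s h k A j ∩ Ew T Q V s h k A,
    bx (r2 T Q V k0 h A j) (r1 T Q V k0) w₀ ⊆ Ew' T Q V s h k A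

/-- I4: the averaging.  PROOF.  `matw` (MatC.lean) with `d = 1/Q^50`, `eta = 1/Q`, `delta = 1/Q^25`,
`z₁ = sF/2`, `z₂ = 2 sF`, `rho = r1`, `rho_z = r2`, and `gamma = min (2 r2) (8 c₂ / A1j)` if
`k0⁻¹ ≤ (1/2)^j` (then `dl k0 j = (1/2)^j`, `A1j = A2j/2 > 0`), `gamma = 2 r2` otherwise (then
`dl k0 j = k0⁻¹`); the factor by `MGStmt`.  `C` is the constant of `matw`. -/
def I4Stmt : Prop := MGStmt → I3Stmt → ∃ C : ℝ, 1 ≤ C ∧ ∀ (T Q : ℝ) (V : Fin 3 → ℝ) (k0 : ℝ)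
  (s : Bool × Bool) (h k : R6) (A : ℝ × ℝ × ℝ) (j : ℕ), C ≤ Q → Ctr T Q V k0 s h k A →
  1 ≤ kpr T (V 0) * (T ^ 2 / V 0 ^ 2) →
    volume (Bj T Q V k0 s h k A j ∩ Ew T Q V s h k A) ≤
      ENNReal.ofReal (Q ^ 400 * gain T V k0 (dl k0 j)) *
        volume (Bj' C T Q V k0 s h k A j ∩ Ew' T Q V s h k A)

/-- I5: the centre.  PROOF.  `a ∈ Src`: `Sz`, `CHAStmt` (5), (6) (`M = Q`), `KVStmt` (windows `Q kap ≤ Q`,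
`Q kpr ≤ Q`; `V`-sizes), `MNStmt`, `ac_ev lpx`. `k0 ≤ ‖k‖ ≤ Q ^ c V 0 ≤ Q^35 V 0` needs `c ≤ 35`: use
`H67.kv` directly (c = 30), or put `c` in: state it as hypothesis `‖k‖ ≤ Q ^ 35 * V 0`. -/
def I5Stmt : Prop := CHAStmt → MNStmt → LPXStmt → ∃ Q0 : ℝ, 1000 ≤ Q0 ∧ ∀ (T Q : ℝ)
  (V : Fin 3 → ℝ) (k0 : ℝ) (s : Bool × Bool) (h k : R6), Q0 ≤ Q → Real.log T ≤ Q →
  Q ^ 2000 ≤ T ^ (1 / 100000 : ℝ) → Rg T Q V → Sz Q V h → 1 ≤ k0 → k0 ≤ ‖k‖ → ‖k‖ ≤ 2 * k0 →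
  ‖k‖ ≤ Q ^ 35 * V 0 → ∀ a ∈ Src T Q V s h k, Ctr T Q V k0 s h k a.1

/-- KV with an explicit exponent (helper67's proof of `KVStmt` gives it, `c = 30`) -/
def KV30Stmt : Prop := ∃ Q0 : ℝ, 2 ≤ Q0 ∧ ∀ T Q : ℝ, Q0 ≤ Q →
  Real.log T ≤ Q → Q ^ 2000 ≤ T ^ (1 / 100000 : ℝ) →
  ∀ (A : ℝ × ℝ × ℝ) (V : Fin 3 → ℝ) (s : Bool × Bool) (th : ℝ) (h k : R6), A ∈ KM Q → Rg T Q V →
    Sz Q V h → Gd Q T (hG A h) (sg s) th →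
    BD T Q Q (fun l => Q * V l) (hG A h) (sg s) th (kG A k) → ‖k‖ ≤ Q ^ 30 * V 0

/-- KR: a number: `kpr * k0 ≤ Q` (`kap^3 V_0 = V_0^(5/2) / T^(3/2)`, `T^(-.97) V_0`) -/
def KRStmt : Prop := ∃ Q0 : ℝ, 2 ≤ Q0 ∧ ∀ (T Q : ℝ) (V : Fin 3 → ℝ) (k0 : ℝ), Q0 ≤ Q →
  Real.log T ≤ Q → Q ^ 2000 ≤ T ^ (1 / 100000 : ℝ) → Rg T Q V → 1 ≤ k0 → k0 ≤ Q ^ 35 * V 0 →
  kpr T (V 0) * k0 ≤ Q

/-- I6: everything together.  PROOF.  `U = Src T Q V s h k`.  If it is empty nothing is to be shown.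
`CVRStmt` with `M = Q`, `r0 = 1/(C₁ Q^54)` (`C₁` of `CHEStmt`): for `a ∈ U`, `A = a.1`, every `a' ∈ U` with
`‖a'.1 - A‖ ≤ r0` is `Psi A w` with `|w.1 - 1| ≤ 1/Q^50`, `‖mw w‖ ≤ 1/Q^50` (`CHEStmt`) and `|w.2 2| ≤ 4`
(intermediate value theorem for `th ↦ ph3 mu th - arg (1 + mu)` on `[-4, 4]`: it differs from `th` by
at most `1/2`, and `|a'.2| ≤ π`).  `I1`: `w ∈ ⋃ j, S_j`, `S_j = {w | (sF w.1, w.2) ∈ Bj ∩ Ew} ⊆ PsR`.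
`volume (Psi A '' S_j) ≤ C M^c volume S_j = C M^c volume (Bj ∩ Ew) / sF` (`COVStmt`, `SCLStmt`), `I4`, and
backwards with `S_j' = {w | (sF w.1, w.2) ∈ Bj' ∩ Ew'} ⊆ PsR` (`Ew'`), `I2`: `Psi A '' S_j' ⊆ TgP ∩ {|a.2| ≤ 6}`,
`PERStmt` (`TgP` is periodic: `wG`, `Gd`, `BD`, `kph` depend on the angle only through `cexp (th I)`), and
`TgP ∩ {a.2 ∈ Ioc} = Tgt`.  `c = 2000`: the factor is `≤ Q^171 * (Q^101)^2 * 3 * Q^400 ≤ Q^2000` and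
`Tgt T (Q^1000) ⊆ Tgt T (Q^2000)` (everything is monotone in `Q`). -/
def I6Stmt : Prop := CHAStmt → CHEStmt → COVStmt → SCLStmt → PERStmt → CVRStmt → KV30Stmt →
  KRStmt → MNStmt → LPXStmt → FRMStmt → I1Stmt → I2Stmt → I3Stmt → MGStmt → I4Stmt → I5Stmt →
  MATStmt

end Pool.Agent.F5H.BC
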