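import Pool.Agent.F5H.DefsL
import Pool.Agent.F5H.StmtsC

/-!
MP_f5cbfa_nt, squad F5H: the link between the blocks LIP and C.

`DKNStmt`: a midpoint of level 6 is in the region `BC.Reg`, and a dual point of `DK` satisfies
`BC.NB`, both with `Q = T ^ ep`, `ep ≥ 4 rho0`.  Then `MStmt` follows from `LIPStmt`, `DKNStmt`,
`BC.CNTStmt` and the volume row (MAS, helper38).
-/

set_option autoImplicit false

open MeasureTheory

namespace Pool.Agent.F5H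

open Pool.Agent.BTL Pool.Agent.F5S Pool.Agent.Helper48_F5

/-- DKN. Proof: `A = Zf T m h` (unique solution of `BC.Fo` by `Ok.inv`), `B = Bf T m h v`;
`d6 (r3 k) v = dot6 k v`; the orthogonal decomposition `v = ν' m + w'` is compared with any
decomposition `v = ν m + w`: `ν' = ν + ⟨w, m⟩ / ⟨m, m⟩`, `|w'| ≤ 7 |w|`, `kapr ≤ kap`, and
`kapr T |ν'| ≤ kapr T |ν| + 6 K³ kap |w|`; all constants are `≤ T ^ rho0`. -/
def DKNStmt : Prop := ∀ ep : ℝ, 4 * rho0 ≤ ep → ∃ T0 : ℝ, 1 ≤ T0 ∧ ∀ T : ℝ, T0 ≤ T →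
  ∀ h : Z6, h ≠ 0 → ∀ m : R6, Lev 6 T (r3 h) m →
    BC.Reg (T ^ ep) T (r3 h) m ∧ ∀ k ∈ DK T (r3 h) m, BC.NB (T ^ ep) T (r3 h) m (r3 k)

end Pool.Agent.F5H
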