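import Pool.Agent.F5H.DefsL
import Pool.Agent.Helper9_F5H.Conic

/-!
MP_f5cbfa_nt, squad F5H, block N: `NStmt` (no component of `h` is zero, middle size at most
`T ^ .3385`).  Statements with proofs in the docstrings.

CONVENTIONS.  `Q` stands for a power of `Px T`; every power of `Q` is free: in every row
`∃ c, ∀ T Q, 2 ≤ Q → Q ^ c ≤ T ^ (1 / 100000) → ...`.  `m = x + h / 2` is the midpoint, its form is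
`Zf T m h` (helper48: `AW Z m h l = Z(m_l) + Z(h_l) / 4 = T ^ 2`).  No derivative and no cone: two
integer points `x`, `x'` of the same thin box are compared by exact identities (row WIN), and `(A, m)`
runs over a whole unit neighbourhood (the products `A(m_l, h_l)` are equal only up to `P * ‖h‖`).
Existing: `Pool/Agent/Helper48_F5/{Lin,Sol,Est}.lean` (`ok_of_reg`, `Ok.inv`, `sol`, `AW_sol`,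
`norm_sol_le`, `eq_of_AW`, `abs_bl_le`).
-/

set_option autoImplicit false

open MeasureTheory Filter Topology

namespace Pool.Agent.F5H.BN

open Pool.Agent.BTL Pool.Agent.F5S Pool.Agent.F5H Pool.Agent.Helper48_F5

/-- the midpoint `m` is regular: sizes, directions, form, equal products -/
structure Rg (Q T : ℝ) (h m : R6) : Prop where
  hm : ∀ l, ‖t3 m l‖ ≤ Q * T
  hd : ∀ i j, i ≠ j → T ^ 2 ≤ Q * |dr (t3 m i) (t3 m j)|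
  hZ : Zf T (t3 m) (t3 h) ∈ KM Q
  hF : ∀ i j, |Ff T (t3 m) (t3 h) i - Ff T (t3 m) (t3 h) j| ≤ Q

/-- windows of the pair `(v, h)`: `D` is the form with `D(v_l) = 1 + A(h_l) / (4 T ^ 2)`
(`c ^ 2 * D` is the form `Ah` of helper68) -/
def WN (P T : ℝ) (A : ℝ × ℝ × ℝ) (h v : R6) : Prop :=
  ∃ D : ℝ × ℝ × ℝ, (∀ l, qf D (t3 v l) = 1 + qf A (t3 h l) / (4 * T ^ 2)) ∧
    ∀ i j, ‖v‖ ^ 2 * |bl D (t3 v i) (t3 h i) - bl D (t3 v j) (t3 h j)| ≤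
      P * (1 + max ‖t3 h i‖ ‖t3 h j‖ / ‖v‖)

/-- the point `(A, m)` sees the pair `(h, v)`: `v` is along the ray of `m`, of length at most
`P * R₁` -/
structure NR (P T R₁ : ℝ) (A : ℝ × ℝ × ℝ) (h v m : R6) : Prop where
  an : ∀ l, |AW A (t3 m) (t3 h) l - T ^ 2| ≤ P
  tb : ∀ i j, |bl A (t3 m i) (t3 h i) - bl A (t3 m j) (t3 h j)| ≤
    P * (1 + max ‖t3 h i‖ ‖t3 h j‖)
  dd : ∀ i j, i ≠ j → T ^ 2 ≤ P * |dr (t3 m i) (t3 m j)|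
  ry : ∃ ν : ℝ, |ν| * T ≤ P * R₁ ∧ ∀ l, ‖t3 v l - ν • t3 m l‖ ≤ P
  wn : P ≤ ‖v‖ → WN P T A h v

/-- FUPe: pointwise bound and support of the kernel, `FUPStmt` of helper48 with an ARBITRARILY small
loss `T ^ ep` (the numerals `c` of the rows of block N are not bounded, so `ep` has to be chosen after
them; same proof as `FUPStmt`, every loss is a power of `T ^ del1`). -/
def FUPeStmt : Prop := ∀ ep : ℝ, 0 < ep → ∃ del1 : ℝ, 0 < del1 ∧ ∀ M : ℝ, 1 ≤ M → ∀ e : ℝ, 0 < e →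
  ∀ p : ℝ × ℝ, ∃ T0 : ℝ, 1 ≤ T0 ∧ ∀ T : ℝ, T0 ≤ T → ∀ W : R6 → ℝ, Adm T del1 W →
  ∀ h : Z6, ∀ x : R6,
    0 ≤ fx M T e p W h x ∧ fx M T e p W h x ≤ T ^ ep * (T ^ 4)⁻¹ ∧
    (fx M T e p W h x ≠ 0 → ‖r3 h‖ ≤ 4 * Lx T ∧ ‖x‖ ≤ 8 * T ∧
      Rg (T ^ ep) T (r3 h) (mid (r3 h) x))

/-- NEA.  One point: `(A, m')` near the ray of `m`.  PROOF.  `A' = Z / (1 + k/T)²`,
`m' = (1 + k/T) (m + w)`, `‖w_l‖ ≤ 2`: `A'(m'_l) + A'(h_l)/4 - T² = Z(m_l + w_l) - Z(m_l) +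
Z(h_l)/4 ((1 + k/T)⁻² - 1) = O(Q^c T)`, so by `Ok.inv` at `m'` `‖A - A'‖ ≤ Q^c / T`.  Products:
`A'(m'_l, h_l) = Z(m_l + w_l, h_l) / (1 + k/T)`. -/
def NEAStmt : Prop := ∃ c : ℕ, ∀ T Q : ℝ, 2 ≤ Q → Q ^ c ≤ T ^ (1 / 100000 : ℝ) →
  ∀ (h m m' : R6) (k : ℝ) (A : ℝ × ℝ × ℝ), ‖h‖ ≤ Q * Lx T → Rg Q T h m →
    |k| ≤ T ^ (12 / 25 : ℝ) → (∀ l, ‖t3 m' l - (1 + k / T) • t3 m l‖ ≤ 1) →
    (∀ l, |AW A (t3 m') (t3 h) l - T ^ 2| ≤ 1) →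
    A ∈ KM (Q ^ c) ∧ ‖A - Zf T (t3 m) (t3 h)‖ ≤ Q ^ c * T ^ (-(13 / 25) : ℝ) ∧
    (∀ i j, |bl A (t3 m' i) (t3 h i) - bl A (t3 m' j) (t3 h j)| ≤
      Q ^ c * (1 + max ‖t3 h i‖ ‖t3 h j‖)) ∧
    (∀ i j, i ≠ j → T ^ 2 ≤ Q ^ c * |dr (t3 m' i) (t3 m' j)|)

/-- VOL.  PROOF.  For `m'` in the product of the three balls of radius `1` the section contains
`Zf T m' h + {‖E‖ ≤ 1 / (Q^c T²)}`.  `Measure.prod_apply_symm`, the set is closed. -/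
def VOLStmt : Prop := ∃ c : ℕ, ∀ T Q : ℝ, 2 ≤ Q → Q ^ c ≤ T ^ (1 / 100000 : ℝ) →
  ∀ (h m : R6) (k : ℝ), ‖h‖ ≤ Q * Lx T → Rg Q T h m → |k| ≤ T ^ (12 / 25 : ℝ) →
    ENNReal.ofReal (1 / (Q ^ c * T ^ 6)) ≤ volume {z : (ℝ × ℝ × ℝ) × R6 |
      (∀ l, ‖t3 z.2 l - (1 + k / T) • t3 m l‖ ≤ 1) ∧
      (∀ l, |AW z.1 (t3 z.2) (t3 h) l - T ^ 2| ≤ 1)}

/-- WIN.  The windows from two exact points `m₀`, `m₁ = m₀ + v`, forms `A₀`, `A₁`.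
PROOF.  `Ab = (A₀ + A₁)/2`, `B = A₁ - A₀`, `mb = m₀ + v/2`, `F^i_l = A_i(m^i_l, h_l)`.  EXACT:
(I) `Ab(v_l, h_l) + B(mb_l, h_l) = F¹_l - F⁰_l`, equal in `l` up to `2 Q`;
(II) `B(mb_l) + B(h_l)/4 + B(v_l)/4 = -2 Ab(mb_l, v_l)`;
(III) `Ab(mb_l) + Ab(h_l)/4 + Ab(v_l)/4 + B(mb_l, v_l)/2 = T²`;
(IV) `Ab(mb_l, h_l) = (F⁰_l + F¹_l)/2 - B(v_l, h_l)/4`.
Let `λ² T² = A₀(v_1) =: c²`, sign of `λ` = sign of `ν` (`λ = ν + O(Q^c/T)`), `y_l = v_l - λ mb_l`,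
`‖y_l‖ ≤ Q^c`, `‖v‖ / Q^c ≤ c ≤ Q^c ‖v‖`, `‖v‖ ≤ Q^c T^(.49)`.
(a) First `‖B‖ ≤ Q^c ‖v‖ / T` (`B(m⁰_l) + B(h_l)/4 = -(2 A₁(m⁰_l, v_l) + A₁(v_l))`).  Then
`E = B + 2 λ Ab` has EXACTLY `E(mb_l) + E(h_l)/4 = -B(v_l)/4 + λ Ab(h_l)/2 - 2 Ab(mb_l, y_l) =
O(Q^c T)` by (II), (III) (`λ ‖h‖² ≤ T`, `‖v‖³ ≤ T²`), so `‖E‖ ≤ Q^c / T`.
(b) `D' = (3 Ab + B/λ) / c²`.  Products: `c² D'(v_l, h_l) = 3 Ab(v_l, h_l) + B(mb_l, h_l) +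
B(y_l, h_l)/λ`, `B(y_l, h_l)/λ = -2 Ab(y_l, h_l) + O(Q^c ‖h_l‖ / ‖v‖)`, `-2 Ab(y_l, h_l) =
-2 Ab(v_l, h_l) + 2 λ Ab(mb_l, h_l)`; so `c² D'(v_l, h_l) = (F¹_l - F⁰_l) + 2 λ Ab(mb_l, h_l) +
O(Q^c ‖h_l‖/‖v‖)`.  `X_l = Ab(mb_l, h_l)` satisfies by (IV) and `B = -2 λ Ab + E`, `v = λ mb + y`:
`(1 - λ²/2) X_l = (F⁰_l + F¹_l)/2 + λ Ab(y_l, h_l)/2 - E(v_l, h_l)/4`, so `2 λ (X_i - X_j) =
O(λ Q^c (1 + ‖v‖ ‖h‖/T)) = O(Q^c)`; with (I): `c² D'(v_l, h_l)` is equal in `l` up to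
`Q^c (1 + ‖h‖/‖v‖)`.
(c) Values: `c² D'(v_l) = 3 Ab(v_l) + B(v_l)/λ`, `B(v_l)/λ = λ B(mb_l) + 2 B(mb_l, y_l) + B(y_l)/λ`,
`λ B(mb_l) = -λ (B(h_l) + B(v_l))/4 - 2 Ab(v_l) + 2 Ab(y_l, v_l)` by (II),
`2 B(mb_l, y_l) = -4 Ab(v_l, y_l) + O(Q^c)`, so `c² D'(v_l) = Ab(v_l) - 2 Ab(v_l, y_l) - λ B(h_l)/4 +
O(Q^c) = λ² Ab(mb_l) - λ B(h_l)/4 + O(Q^c)`, and by (III) and `B(h_l) = -2 λ Ab(h_l) + O(Q^c ‖h‖²/T)`: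
`= c² - λ² Ab(h_l)/4 + λ² Ab(h_l)/2 + O(Q^c) = c² (1 + A(h_l)/(4 T²)) + O(Q^c)`.
(d) `D` = the form with the exact values (`|dr v_i v_j| ≥ ‖v‖²/Q^c`), and `‖D - D'‖ ≤ Q^c / ‖v‖⁴`. -/
def WINStmt : Prop := ∃ c : ℕ, ∀ T Q : ℝ, 2 ≤ Q → Q ^ c ≤ T ^ (1 / 100000 : ℝ) →
  ∀ (h m₀ m₁ : R6) (ν : ℝ) (A : ℝ × ℝ × ℝ), ‖h‖ ≤ Q * Lx T → Rg Q T h m₀ → Rg Q T h m₁ →
    |ν| * T ≤ T ^ (49 / 100 : ℝ) → (∀ l, ‖t3 (m₁ - m₀) l - ν • t3 m₀ l‖ ≤ Q) →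
    ‖A - Zf T (t3 m₀) (t3 h)‖ ≤ Q * T ^ (-(1 / 2) : ℝ) → Q ^ c ≤ ‖m₁ - m₀‖ →
    WN (Q ^ c) T A h (m₁ - m₀)

/-- BOX (uses NEA VOL WIN).  PROOF.  For `x ∈ X` and the integers `0 ≤ k ≤ R₁` let `Om(x,k)` be the set
of VOL for `m = x + h/2`.  Then `card X * R₁ / (Q^c T⁶) ≤ ∑_x ∑_k vol Om(x,k) = ∫ dA ∫ dm' #{(x,k) :
(A, m') ∈ Om(x,k)}`.  Fix `(A, m')`.  For one `x` there are at most `Q^c` values of `k`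
(`‖m_l‖ ≥ T/Q^c`).  If `x₀` and `x = x₀ + v` occur (with `k₀`, `k`), then `A ∈ KM (Q^c)` and the tube
and the determinants by NEA, `v_l = m_l - m⁰_l = ((1+k/T)⁻¹ - (1+k₀/T)⁻¹) m'_l + O(1)`, and for
`Q^c ≤ ‖v‖` WIN gives `WN`.  So the number is at most `Q^c #{v : NR}` (`x ↦ v = x - x₀` is
injective), and `∫ dm' ∑_v 1 ≤ ∑_v vol` (use `toMeasurable`). -/
def BOXStmt : Prop := ∃ c : ℕ, ∀ T Q : ℝ, 2 ≤ Q → Q ^ c ≤ T ^ (1 / 100000 : ℝ) →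
  ∀ (R₁ : ℝ) (h : Z6) (X : Finset Z6), 1 ≤ R₁ → R₁ ≤ T ^ (12 / 25 : ℝ) → h ≠ 0 →
    ‖r3 h‖ ≤ Q * Lx T → (∀ x ∈ X, Rg Q T (r3 h) (mid (r3 h) (r3 x))) →
    (X.card : ENNReal) ≤ ENNReal.ofReal (Q ^ c * T ^ 6 / R₁) *
      ∫⁻ A in KM (Q ^ c), ∑' v : Z6, volume {m : R6 | NR (Q ^ c) T R₁ A (r3 h) (r3 v) m}

/-! ### the fixed form, normalised: the form is `‖ ‖²` on `ℂ`, the lattice is `g (ℤ × ℤ)` -/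

/-- components -/
def c3 (m : ℂ × ℂ × ℂ) : Fin 3 → ℂ := ![m.1, m.2.1, m.2.2]

/-- lattice triples -/
def g3 (g : ℤ × ℤ →+ ℂ) (h : Z6) : Fin 3 → ℂ := ![g h.1, g h.2.1, g h.2.2]

/-- `NR` for the form `‖ ‖²` -/
structure NRC (P T R₁ : ℝ) (g : ℤ × ℤ →+ ℂ) (h v : Z6) (m : ℂ × ℂ × ℂ) : Prop where
  an : ∀ l, |‖c3 m l‖ ^ 2 + ‖g3 g h l‖ ^ 2 / 4 - T ^ 2| ≤ P
  tb : ∀ i j, |Helper68_F5.sp (c3 m i) (g3 g h i) - Helper68_F5.sp (c3 m j) (g3 g h j)| ≤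
    P * max ‖g3 g h i‖ ‖g3 g h j‖
  ds : ∀ i j, i ≠ j → ‖c3 m i‖ * ‖c3 m j‖ ≤ P * |Helper68_F5.wd (c3 m i) (c3 m j)|
  ry : ∃ ν : ℝ, |ν| * T ≤ P * R₁ ∧ ∀ l, ‖g3 g v l - (ν : ℂ) * c3 m l‖ ≤ P
  wn : P ≤ ‖g v.1‖ → ∀ i j,
    |Helper68_F5.bf (Helper68_F5.Ah (T ^ 2) ‖g v.1‖ (g v.1) (g v.2.1) (g v.2.2) (g h.1) (g h.2.1)
        (g h.2.2)) (g3 g v i) (g3 g h i) -
      Helper68_F5.bf (Helper68_F5.Ah (T ^ 2) ‖g v.1‖ (g v.1) (g v.2.1) (g v.2.2) (g h.1) (g h.2.1)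
        (g h.2.2)) (g3 g v j) (g3 g h j)| ≤ P * (1 + max ‖g3 g h i‖ ‖g3 g h j‖ / ‖g v.1‖)

open Classical in
/-- the sum over the pairs of a dyadic family `V_l / 2 < ‖H_l‖ ≤ V_l` -/
noncomputable def SC (P T R₁ : ℝ) (g : ℤ × ℤ →+ ℂ) (V : Fin 3 → ℝ) : ENNReal :=
  ∑' h : Z6, ∑' v : Z6, if (∀ l, V l / 2 < ‖g3 g h l‖ ∧ ‖g3 g h l‖ ≤ V l) then
    volume {m : ℂ × ℂ × ℂ | NRC P T R₁ g h v m} else 0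

/-- what `N` needs: `T⁶ / R₁ * SC ≤ T⁶` for `R₁ ~ bare` -/
noncomputable def bare (T : ℝ) (V : Fin 3 → ℝ) : ℝ := max 1 ((V 0 * V 1 * V 2 / T) ^ 2)

/-- sizes of the families (sorted) -/
structure FamV (Q T : ℝ) (V : Fin 3 → ℝ) : Prop where
  h2 : 1 ≤ V 2
  h12 : V 2 ≤ V 1
  h01 : V 1 ≤ V 0
  h0 : V 0 ≤ Q * Lx T
  h1 : V 1 ≤ Q * T ^ (677 / 2000 : ℝ)

/-- DU1: not isotropic (cases A and B of helper46's mail).  `JG Q g`: annulus count with constant `Q`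
(so the pair count must be polynomial in the constant of `JG`).  PROOF: pair counts
(`pair_count_conic`; in case B index `0` regular and `1`, `2` in classes), areas `P/(T del)`, arcs
`P/R`. -/
def DU1Stmt : Prop := ∃ c : ℕ, ∀ T Q : ℝ, 2 ≤ Q → Real.log T ≤ Q →
  Q ^ c ≤ T ^ (1 / 100000 : ℝ) → ∀ (g : ℤ × ℤ →+ ℂ) (V : Fin 3 → ℝ) (R₁ : ℝ),
    Helper68_F5.Sep 1 g → H9.JG Q g → FamV Q T V → (4 * V 2 ≤ V 1 ∨ 4 * V 1 ≤ V 0) →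
    R₁ ≤ Q * bare T V → bare T V ≤ Q * R₁ → SC Q T R₁ g V ≤ ENNReal.ofReal (Q ^ c * R₁)

/-- DU2: nearly isotropic, `V 0 ≤ Q * V 2`, with `R₁ ~ T^(1/50) * bare`. -/
def DU2Stmt : Prop := ∃ c : ℕ, ∀ T Q : ℝ, 2 ≤ Q → Real.log T ≤ Q →
  Q ^ c ≤ T ^ (1 / 100000 : ℝ) → ∀ (g : ℤ × ℤ →+ ℂ) (V : Fin 3 → ℝ) (R₁ : ℝ),
    Helper68_F5.Sep 1 g → H9.JG Q g → FamV Q T V → V 0 ≤ Q * V 2 →
    R₁ ≤ Q * (T ^ (1 / 50 : ℝ) * bare T V) → T ^ (1 / 50 : ℝ) * bare T V ≤ Q * R₁ →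
    SC Q T R₁ g V ≤ ENNReal.ofReal (Q ^ c * R₁)

/-! ### transfer and assembly -/

/-- dyadic family in the sup norm -/
def fam (V : Fin 3 → ℝ) (h : Z6) : Prop := ∀ l, V l ≤ ‖t3 (r3 h) l‖ ∧ ‖t3 (r3 h) l‖ ≤ 2 * V l

open Classical in
/-- the length of the boxes for a family (not sorted) -/
noncomputable def rr (Q T : ℝ) (V : Fin 3 → ℝ) : ℝ :=
  if (∀ i j, V i ≤ Q ^ 10 * V j) then T ^ (1 / 50 : ℝ) * bare T V else bare T V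

/-- FXA (uses DU1 DU2 and the annulus count `annulusP` of helper96).  PROOF.  `g = Q • (frame of A)`,
`‖g z‖² = Q² A(z) ≥ 1`, `T' = Q T`: `NR Q T R₁ A h v m` implies `NRC (Q^c) T' R₁ g h v m'`,
`m'_l = Q • frame (m_l)` (linear, Jacobian `≥ Q^(-c)`); `Ah = c² D` in the frame (`D` is unique).
`JG (Q^c) g`.  The family `V` (sup norm) is contained in `Q^c` sorted families of the norm `‖g ‖`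
after one of the six permutations (`NRC` is symmetric up to a factor: `wn` uses `‖g v.1‖`, the other
`‖g v_l‖` are within `Q^c` of it, and `Ah` scales with `c²`).  If `V i > Q^10 V j` for some `i j`, all
these families satisfy the hypothesis of DU1 (`16 V 2 ≤ V 0`), otherwise that of DU2. -/
def FXAStmt : Prop := ∃ c : ℕ, ∀ T Q : ℝ, 2 ≤ Q → Real.log T ≤ Q →
  Q ^ c ≤ T ^ (1 / 100000 : ℝ) → ∀ (A : ℝ × ℝ × ℝ) (V : Fin 3 → ℝ) (H : Finset Z6), A ∈ KM Q →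
    (∀ l, 1 ≤ V l) → (∀ l, V l ≤ Q * Lx T) →
    (∃ i j, i ≠ j ∧ V i ≤ Q * T ^ (677 / 2000 : ℝ) ∧ V j ≤ Q * T ^ (677 / 2000 : ℝ)) →
    (∀ h ∈ H, fam V h) →
    ∑ h ∈ H, ∑' v : Z6, volume {m : R6 | NR Q T (rr Q T V) A (r3 h) (r3 v) m} ≤
      ENNReal.ofReal (Q ^ c * rr Q T V)

/-- FNN: `NStmt` (uses FUPe BOX FXA).  PROOF.  Let `c₁, c₂` be the numerals of BOX and FXA,
`ep` with `ep * 10 * (c₁ + 1) * (c₂ + 1) ≤ rho0`, `Q = T ^ ep`, `Q₁ = Q ^ c₁`; `del1` and `T0` from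
FUPe, `T0` large.  `∑_h ∑'_x fx ≤ Q T⁻⁴ ∑_h card X_h`, `X_h = {x : fx ≠ 0}` finite (`‖x‖ ≤ 8 T`), all
its points in `Rg Q`.  Families `V_l = 2^(i_l)`, `(log T)³ ≤ Q` of them.  BOX with `R₁ = rr Q₁ T V`
(`rr ≤ T^.47`), FXA for `Q₁`; `∑_h ∫ ≤ ∫ ∑_h` (`le_lintegral_add`, no measurability),
`vol (KM Q₁) ≤ (4 Q₁)³`.  Two of the `V_l` are `≤ V2 h ≤ T ^ .3385`. -/
def FNNStmt : Prop := NStmt

end Pool.Agent.F5H.BN
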